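import Pool.Agent.helper21.WB.Basic

/-! MP_7b8095_gt, module B1b: boosts, geodesic segments, two-point homogeneity. -/

set_option autoImplicit false
open Matrix MeasureTheory

namespace Pool.Agent.helper21.WB

namespace B1b

theorem bl_J_mulVec (v w : I → ℝ) : bl (J *ᵥ v) (J *ᵥ w) = bl v w := by
  apply bl_mulVec
  rw [J_transpose, J_mul_J, one_mul]

theorem mulVec_single (A : Mat) (i : I) : A *ᵥ (Pi.single i 1) = A.col i := by
  exact Matrix.mulVec_single_one A i

theorem lor_of_bl {A : Mat} (h : ∀ v w, bl (A *ᵥ v) (A *ᵥ w) = bl v w) : Aᵀ * J * A = J := by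
  have key : ∀ B : Mat, ∀ i j, B i j = (Pi.single i 1) ⬝ᵥ (B *ᵥ (Pi.single j 1)) := by
    intro B i j
    rw [mulVec_single]; simp [Matrix.col]
  ext i j
  rw [key (Aᵀ * J * A) i j, key J i j]
  have h1 := h (Pi.single i 1) (Pi.single j 1)
  unfold bl at h1
  rw [← h1, ← Matrix.mulVec_mulVec, ← Matrix.mulVec_mulVec, Matrix.dotProduct_mulVec,
    Matrix.vecMul_transpose]

/-- make an element of `GLI` from an isometry of the form -/
noncomputable def mk (A : Mat) (h : Aᵀ * J * A = J) : GLI :=
  have h1 : (J * Aᵀ * J) * A = 1 := by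
    rw [mul_assoc, mul_assoc, ← mul_assoc Aᵀ, h, J_mul_J]
  ⟨A, J * Aᵀ * J, mul_eq_one_comm.1 h1, h1⟩

theorem mk_val (A : Mat) (h : Aᵀ * J * A = J) : (mk A h).val = A := rfl

/-- the reflection in `n` -/
noncomputable def refl (n : I → ℝ) : Mat := 1 - (2 / bl n n) • Matrix.vecMulVec n (J *ᵥ n)

theorem refl_mulVec (n v : I → ℝ) : refl n *ᵥ v = v - (2 * bl n v / bl n n) • n := by
  unfold refl
  rw [Matrix.sub_mulVec, Matrix.one_mulVec, Matrix.smul_mulVec, Matrix.vecMulVec_mulVec]
  congr 1
  ext i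
  simp only [Pi.smul_apply, smul_eq_mul, MulOpposite.smul_eq_mul_unop, MulOpposite.unop_op]
  have : (J *ᵥ n) ⬝ᵥ v = bl n v := by rw [dotProduct_comm, bl_comm]; rfl
  rw [this]; ring

theorem bl_refl {n : I → ℝ} (hn : bl n n ≠ 0) (v w : I → ℝ) :
    bl (refl n *ᵥ v) (refl n *ᵥ w) = bl v w := by
  rw [refl_mulVec, refl_mulVec]
  simp only [bl_sub_left, bl_sub_right, bl_smul_left, bl_smul_right]
  rw [bl_comm v n]
  field_simp
  ring

theorem bl_single_o (v : I → ℝ) : bl v (Pi.single o 1) = - v o := by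
  rw [bl_apply]; simp

theorem act_zero_of {g : GLI} {y : X} (h : g.val *ᵥ lift 0 = lift y) : act g 0 = y := by
  ext i
  unfold act
  rw [h]; rfl

theorem lift_zero' : lift 0 = Pi.single o 1 := by
  ext i; rw [lift_zero]
  by_cases h : i = o
  · subst h; simp
  · rw [if_neg h, Pi.single_eq_of_ne h]

theorem ch_zero' (y : X) : ch 0 y = lift y o := by
  unfold ch; rw [bl_comm, lift_zero', bl_single_o, neg_neg]

end B1b

open B1b

/-- the boost moving `0` to `y` -/
theorem exists_bst (y : X) : ∃ g : GLI, InG g ∧ act g 0 = y := by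
  set n : I → ℝ := lift y + lift 0 with hn
  have hy1 := lift_o_pos y
  have h0 : lift 0 = Pi.single o 1 := lift_zero'
  have hbn : bl n n = -2 * (1 + lift y o) := by
    rw [hn, bl_add_left, bl_add_right, bl_add_right, bl_lift, bl_lift, bl_comm (lift 0) (lift y),
      h0, bl_single_o]; ring
  have hbn0 : bl n n ≠ 0 := by rw [hbn]; nlinarith
  have hlor : (refl n * J)ᵀ * J * (refl n * J) = J := by
    apply lor_of_bl
    intro v w
    rw [← Matrix.mulVec_mulVec, ← Matrix.mulVec_mulVec, bl_refl hbn0, bl_J_mulVec]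
  have hJ0 : J *ᵥ lift 0 = - lift 0 := by
    rw [h0]
    ext i
    rcases i with i | i <;> simp [J, Matrix.mulVec, dotProduct, Fintype.sum_sum_type]
  have hval : (refl n * J) *ᵥ lift 0 = lift y := by
    rw [← Matrix.mulVec_mulVec, hJ0, Matrix.mulVec_neg, refl_mulVec]
    have e1 : bl n (lift 0) = -(1 + lift y o) := by
      rw [h0, bl_single_o, hn, Pi.add_apply, h0, Pi.single_eq_same]; ring
    rw [e1, hbn]
    have e2 : (2 * -(1 + lift y o) / (-2 * (1 + lift y o))) = 1 := by
      have : (1 + lift y o) ≠ 0 := by linarith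
      field_simp
    rw [e2, one_smul, hn]
    abel
  refine ⟨mk _ hlor, ⟨hlor, ?_⟩, act_zero_of hval⟩
  have := congrFun hval o
  rw [mulVec_lift_zero] at this
  rw [mk_val, this]; linarith

theorem exists_geod (x y : X) : ∃ c : ℝ → X, Continuous c ∧ c 0 = x ∧ c 1 = y ∧
    ∀ t ∈ Set.Icc (0:ℝ) 1, hd x (c t) = t * hd x y ∧ hd (c t) y = (1 - t) * hd x y := by
  by_cases hxy : hd x y = 0
  · have h1 : ch x y = 1 := by rw [← cosh_hd, hxy, Real.cosh_zero]
    -- then `x = y`
    have h2 : x = y := by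
      obtain ⟨g, hg, hgx⟩ := exists_bst x
      have h3 : ch 0 (act g⁻¹ y) = 1 := by
        rw [← h1, ← ch_act hg 0, act_act_inv hg, hgx]
      rw [ch_zero'] at h3
      have h4 := lift_o_sq (act g⁻¹ y)
      rw [h3] at h4
      have h5 : ∑ i, (act g⁻¹ y) i ^ 2 = 0 := by linarith
      have h6 : act g⁻¹ y = 0 := by
        ext i
        have := (Finset.sum_eq_zero_iff_of_nonneg (fun i _ => sq_nonneg ((act g⁻¹ y) i))).1 h5 i
          (Finset.mem_univ i)
        simpa using this
      rw [← hgx, ← h6, act_act_inv hg]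
    subst h2
    refine ⟨fun _ => x, continuous_const, rfl, rfl, fun t _ => ?_⟩
    rw [hxy]; simp
  set d := hd x y with hd'
  have hd0 : 0 < d := lt_of_le_of_ne (hd_nonneg x y) (Ne.symm hxy)
  have hs : 0 < Real.sinh d := Real.sinh_pos_iff.2 hd0
  have hch : ch x y = Real.cosh d := (cosh_hd x y).symm
  set V : ℝ → (I → ℝ) := fun t => (Real.sinh ((1 - t) * d) / Real.sinh d) • lift x +
    (Real.sinh (t * d) / Real.sinh d) • lift y with hV
  set c : ℝ → X := fun t i => V t (Sum.inl i) with hc
  have hxy' : bl (lift x) (lift y) = - Real.cosh d := by rw [← hch]; unfold ch; ring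
  have hadd : ∀ t, Real.sinh d = Real.sinh ((1 - t) * d) * Real.cosh (t * d) +
      Real.cosh ((1 - t) * d) * Real.sinh (t * d) := by
    intro t
    rw [← Real.sinh_add]; congr 1; ring
  have hcadd : ∀ t, Real.cosh d = Real.cosh ((1 - t) * d) * Real.cosh (t * d) +
      Real.sinh ((1 - t) * d) * Real.sinh (t * d) := by
    intro t
    rw [← Real.cosh_add]; congr 1; ring
  have hVV : ∀ t, bl (V t) (V t) = -1 := by
    intro t
    simp only [hV, bl_add_left, bl_add_right, bl_smul_left, bl_smul_right, bl_lift]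
    rw [bl_comm (lift y) (lift x), hxy']
    have e1 := hadd t
    have e2 := hcadd t
    have e3 := Real.cosh_sq ((1 - t) * d)
    have e4 := Real.cosh_sq (t * d)
    field_simp
    rw [e2, e1]
    nlinarith
  have hVo : ∀ t ∈ Set.Icc (0:ℝ) 1, 0 < V t o := by
    intro t ht
    simp only [hV, Pi.add_apply, Pi.smul_apply, smul_eq_mul]
    have a1 : 0 ≤ Real.sinh ((1 - t) * d) := Real.sinh_nonneg_iff.2 (by
      have := ht.2; apply mul_nonneg <;> linarith)
    have a2 : 0 ≤ Real.sinh (t * d) := Real.sinh_nonneg_iff.2 (mul_nonneg ht.1 hd0.le)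
    have b1 := lift_o_pos x
    have b2 := lift_o_pos y
    have a3 : 0 < Real.sinh ((1 - t) * d) + Real.sinh (t * d) := by
      rcases eq_or_lt_of_le ht.1 with h | h
      · rw [← h]; simpa using hs
      · have : 0 < Real.sinh (t * d) := Real.sinh_pos_iff.2 (mul_pos h hd0)
        linarith
    have c1 : 0 ≤ Real.sinh ((1 - t) * d) / Real.sinh d := by positivity
    have c2 : 0 ≤ Real.sinh (t * d) / Real.sinh d := by positivity
    have c3 : 0 < Real.sinh ((1 - t) * d) / Real.sinh d + Real.sinh (t * d) / Real.sinh d := by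
      rw [← add_div]; positivity
    nlinarith
  have hlift : ∀ t ∈ Set.Icc (0:ℝ) 1, lift (c t) = V t := by
    intro t ht
    exact (eq_lift (hVV t) (hVo t ht)).symm
  refine ⟨c, ?_, ?_, ?_, fun t ht => ⟨?_, ?_⟩⟩
  · refine continuous_pi fun i => ?_
    simp only [hc, hV, Pi.add_apply, Pi.smul_apply, smul_eq_mul]
    fun_prop
  · ext i
    simp only [hc, hV, Pi.add_apply, Pi.smul_apply, smul_eq_mul]
    rw [sub_zero, one_mul, zero_mul, Real.sinh_zero, zero_div, zero_mul, add_zero,
      div_self hs.ne', one_mul]; rfl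
  · ext i
    simp only [hc, hV, Pi.add_apply, Pi.smul_apply, smul_eq_mul]
    rw [sub_self, one_mul, zero_mul, Real.sinh_zero, zero_div, zero_mul, zero_add,
      div_self hs.ne', one_mul]; rfl
  · have h1 : ch x (c t) = Real.cosh (t * d) := by
      unfold ch
      rw [hlift t ht]
      simp only [hV, bl_add_right, bl_smul_right, bl_lift]
      rw [hxy']
      have e1 := hadd t
      have e2 := hcadd t
      have e4 := Real.cosh_sq (t * d)
      field_simp
      rw [e2, e1]
      linear_combination (-(Real.sinh ((1 - t) * d))) * e4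
    unfold hd
    rw [h1, Real.arcosh_cosh (mul_nonneg ht.1 hd0.le)]
  · have h1 : ch (c t) y = Real.cosh ((1 - t) * d) := by
      unfold ch
      rw [hlift t ht]
      simp only [hV, bl_add_left, bl_smul_left, bl_lift]
      rw [hxy']
      have e1 := hadd t
      have e2 := hcadd t
      have e4 := Real.cosh_sq ((1 - t) * d)
      field_simp
      rw [e2, e1]
      linear_combination (-(Real.sinh (t * d))) * e4
    unfold hd
    rw [h1, Real.arcosh_cosh (mul_nonneg (by linarith [ht.2]) hd0.le)]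

/-- two point homogeneity -/
theorem exists_pair {x y x' y' : X} (h : hd x y = hd x' y') :
    ∃ g : GLI, InG g ∧ act g x = x' ∧ act g y = y' := by
  obtain ⟨a, ha, hax⟩ := exists_bst x
  obtain ⟨b, hb, hbx⟩ := exists_bst x'
  have hch : ch x y = ch x' y' := by rw [← cosh_hd, ← cosh_hd, h]
  have h1 : ch 0 (act a⁻¹ y) = ch 0 (act b⁻¹ y') := by
    rw [← ch_act ha 0, act_act_inv ha, hax, ← ch_act hb 0 (act b⁻¹ y'), act_act_inv hb, hbx, hch]
  rw [ch_zero', ch_zero'] at h1
  -- an element fixing `0` and moving `a⁻¹ y` to `b⁻¹ y'`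
  have key : ∀ p q : X, lift p o = lift q o → ∃ k : GLI, InG k ∧ act k 0 = 0 ∧ act k p = q := by
    intro p q hpq
    by_cases hpq' : p = q
    · exact ⟨1, InG.one, act_one 0, by rw [hpq', act_one]⟩
    set n : I → ℝ := lift p - lift q with hn
    have hno : n o = 0 := by rw [hn, Pi.sub_apply, hpq, sub_self]
    have hbn : bl n n = ∑ i : Fin 4, (p i - q i) ^ 2 := by
      rw [bl_apply, hno, mul_zero, sub_zero]
      exact Finset.sum_congr rfl fun i _ => by rw [hn, Pi.sub_apply, lift_inl, lift_inl]; ring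
    have hbn0 : bl n n ≠ 0 := by
      rw [hbn]
      intro h0
      apply hpq'
      ext i
      have := (Finset.sum_eq_zero_iff_of_nonneg (fun i _ => sq_nonneg (p i - q i))).1 h0 i
        (Finset.mem_univ i)
      have h2 : p i - q i = 0 := by simpa using this
      linarith
    have hlor : (refl n)ᵀ * J * (refl n) = J := lor_of_bl (bl_refl hbn0)
    have hz : refl n *ᵥ lift 0 = lift 0 := by
      rw [refl_mulVec, lift_zero', bl_single_o, hno, neg_zero, mul_zero, zero_div, zero_smul,
        sub_zero]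
    have hp : refl n *ᵥ lift p = lift q := by
      rw [refl_mulVec]
      have e1 : 2 * bl n (lift p) = bl n n := by
        have e2 : bl n n = bl (lift p) (lift p) - 2 * bl (lift q) (lift p)
            + bl (lift q) (lift q) := by
          rw [hn, bl_sub_left, bl_sub_right, bl_sub_right, bl_comm (lift p) (lift q)]; ring
        rw [e2, hn, bl_sub_left, bl_lift, bl_lift]; ring
      rw [e1, div_self hbn0, one_smul, hn]
      abel
    refine ⟨mk _ hlor, ⟨hlor, ?_⟩, act_zero_of hz, ?_⟩
    · have := congrFun hz o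
      rw [mulVec_lift_zero, lift_zero, if_pos rfl] at this
      rw [mk_val, this]; exact one_pos
    · ext i
      unfold act
      rw [mk_val, hp]; rfl
  obtain ⟨k, hk, hk0, hkp⟩ := key _ _ h1
  refine ⟨b * k * a⁻¹, (hb.mul hk).mul ha.inv, ?_, ?_⟩
  · rw [act_mul ha.inv, act_mul hk, ← hax, act_inv_act ha, hk0, hbx]
  · rw [act_mul ha.inv, act_mul hk, hkp, act_act_inv hb]

end Pool.Agent.helper21.WB
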