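import Pool.Agent.helper19.WB.B3a
import Pool.Agent.helper26.WB.B1b

/-! MP_7b8095_gt, module B3b: the norm in a frame. -/

set_option autoImplicit false
open Matrix MeasureTheory

namespace Pool.Agent.helper21.WB

namespace B3b

theorem fn_sq (A : Mat) : fn A ^ 2 = ∑ i, ∑ j, A i j ^ 2 :=
  Real.sq_sqrt (Finset.sum_nonneg fun i _ => Finset.sum_nonneg fun j _ => sq_nonneg _)

theorem trace_transpose_mul (M : Mat) : Matrix.trace (Mᵀ * M) = ∑ i, ∑ j, M i j ^ 2 := by
  rw [Finset.sum_comm]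
  simp only [Matrix.trace, Matrix.diag, Matrix.mul_apply, Matrix.transpose_apply]
  exact Finset.sum_congr rfl fun j _ => Finset.sum_congr rfl fun i _ => by ring

theorem fn_transpose (A : Mat) : fn Aᵀ = fn A := by
  unfold fn
  congr 1
  rw [Finset.sum_comm]
  rfl

theorem one_eq : (1 : Mat) = J + 2 • Matrix.vecMulVec (lift 0) (lift 0) := by
  rw [two_nsmul]
  ext i j
  rcases i with i | i <;> rcases j with j | j <;>
    simp [J, Matrix.vecMulVec_apply, lift_zero, Matrix.one_apply]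

theorem Qf_eq {g : GLI} (hg : InG g) : Qf (act g 0) = g.val * (g.val)ᵀ := by
  have h1 : g.val * J * (g.val)ᵀ = J := mul_J_transpose hg.1
  calc Qf (act g 0) = g.val * J * (g.val)ᵀ +
        2 • (Matrix.vecMulVec (g.val *ᵥ lift 0) (g.val *ᵥ lift 0)) := by
        rw [h1, Qf, lift_act hg]
    _ = g.val * (J + 2 • Matrix.vecMulVec (lift 0) (lift 0)) * (g.val)ᵀ := by
        rw [mul_add, add_mul, Matrix.mul_smul, Matrix.smul_mul, Matrix.mul_vecMulVec,
          Matrix.vecMulVec_mul, Matrix.vecMul_transpose]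
    _ = g.val * (g.val)ᵀ := by rw [← one_eq, mul_one]

theorem Pf_eq {g : GLI} (hg : InG g) :
    Pf (act g 0) = ((g⁻¹ : GLI).val)ᵀ * (g⁻¹ : GLI).val := by
  have h1 : Pf (act g 0) = J * Qf (act g 0) * J := by
    unfold Pf Qf
    rw [mul_add, add_mul, J_mul_J, one_mul, Matrix.mul_smul, Matrix.smul_mul]
  have h2 : ((g⁻¹ : GLI).val)ᵀ = J * g.val * J := by
    rw [hg.inv_val, Matrix.transpose_mul, Matrix.transpose_mul, J_transpose,
      Matrix.transpose_transpose, mul_assoc]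
  rw [h1, Qf_eq hg, h2, hg.inv_val]
  calc J * (g.val * (g.val)ᵀ) * J = J * g.val * (1 : Mat) * (g.val)ᵀ * J := by
        rw [mul_one]; simp only [mul_assoc]
    _ = _ := by rw [← J_mul_J]; simp only [mul_assoc]

theorem continuous_lift' : Continuous lift := by
  refine continuous_pi fun i => ?_
  rcases i with i | i
  · exact continuous_apply i
  · change Continuous fun y : X => Real.sqrt (1 + ∑ i, y i ^ 2)
    fun_prop

/-- elements of `G` stretch vectors at most by `exp d` -/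
theorem norm_mulVec_le {b : Mat} (hb : bᵀ * J * b = J) (hb0 : 0 < b o o) (v : I → ℝ) :
    ∑ i, (b *ᵥ v) i ^ 2 ≤ Real.exp (2 * Real.arcosh (b o o)) * ∑ i, v i ^ 2 := by
  set c := b o o with hc
  have hrow := bl_row hb
  -- the row `o`
  have hr : ∑ i : Fin 4, b o (Sum.inl i) ^ 2 = c ^ 2 - 1 := by
    rw [bl_apply] at hrow
    simp at hrow
    have : ∑ i : Fin 4, b o (Sum.inl i) ^ 2 = ∑ i : Fin 4, b (Sum.inr ()) (Sum.inl i) * b (Sum.inr ()) (Sum.inl i) :=
      Finset.sum_congr rfl fun i _ => by ring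
    rw [this]
    nlinarith
  have hc1 : 1 ≤ c := by
    have h0 : 0 ≤ ∑ i : Fin 4, b o (Sum.inl i) ^ 2 := Finset.sum_nonneg fun i _ => sq_nonneg _
    nlinarith
  set d := Real.arcosh c with hd
  have hd0 : 0 ≤ d := Real.arcosh_nonneg hc1
  have hcosh : Real.cosh d = c := Real.cosh_arcosh hc1
  set s := Real.sinh d with hs
  have hs0 : 0 ≤ s := Real.sinh_nonneg_iff.2 hd0
  have hcs : c ^ 2 = s ^ 2 + 1 := by rw [← hcosh]; exact Real.cosh_sq d
  set P := ∑ i : Fin 4, v (Sum.inl i) ^ 2 with hP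
  have hP0 : 0 ≤ P := Finset.sum_nonneg fun i _ => sq_nonneg _
  set t := v o with ht
  have hv : ∑ i, v i ^ 2 = P + t ^ 2 := by
    rw [Fintype.sum_sum_type]; simp [hP, ht]
  have h1 : bl (b *ᵥ v) (b *ᵥ v) = P - t ^ 2 := by
    rw [bl_mulVec hb, bl_apply, hP]
    congr 1
    · exact Finset.sum_congr rfl fun i _ => by ring
    · rw [ht]; ring
  have h2 : ∑ i, (b *ᵥ v) i ^ 2 = P - t ^ 2 + 2 * (b *ᵥ v) o ^ 2 := by
    rw [← h1, bl_apply, Fintype.sum_sum_type]
    have : ∑ i : Fin 4, (b *ᵥ v) (Sum.inl i) * (b *ᵥ v) (Sum.inl i) =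
      ∑ i : Fin 4, (b *ᵥ v) (Sum.inl i) ^ 2 := Finset.sum_congr rfl fun i _ => by ring
    rw [this]
    simp
    ring
  set q := ∑ i : Fin 4, b o (Sum.inl i) * v (Sum.inl i) with hq
  have h3 : (b *ᵥ v) o = q + c * t := by
    rw [Matrix.mulVec, dotProduct, Fintype.sum_sum_type]; simp [hq, hc, ht]
  have h4 : q ^ 2 ≤ s ^ 2 * P := by
    have := cs_spatial (fun i => b o (Sum.inl i)) (fun i => v (Sum.inl i))
    rw [hr] at this
    have e : c ^ 2 - 1 = s ^ 2 := by linarith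
    rw [e] at this
    exact this
  rw [h2, hv, h3]
  set p := Real.sqrt P with hp
  have hp0 : 0 ≤ p := Real.sqrt_nonneg _
  have hpP : p ^ 2 = P := Real.sq_sqrt hP0
  have h5 : |q| ≤ s * p := abs_le_of_sq_le_sq (by rw [mul_pow, hpP]; exact h4) (by positivity)
  have h6 : (q + c * t) ^ 2 ≤ (s * p + c * |t|) ^ 2 := by
    rw [← sq_abs (q + c * t)]
    have h7 : |q + c * t| ≤ s * p + c * |t| := by
      calc |q + c * t| ≤ |q| + |c * t| := abs_add_le _ _
        _ ≤ s * p + c * |t| := by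
          rw [abs_mul, abs_of_nonneg (by linarith : (0:ℝ) ≤ c)]; gcongr
    gcongr
  have hexp : Real.exp (2 * d) = (c + s) ^ 2 := by
    have : Real.exp d = c + s := by rw [← hcosh, hs, Real.cosh_add_sinh]
    rw [← this, ← Real.exp_nat_mul]; norm_num
  rw [hexp, ← hpP]
  have ht2 : t ^ 2 = |t| ^ 2 := (sq_abs t).symm
  rw [ht2]
  have habs := abs_nonneg t
  have hcs0 : 0 ≤ c * s := by positivity
  nlinarith [mul_nonneg hcs0 (sq_nonneg (p - |t|)), sq_nonneg (p - |t|)]

theorem fn_mul_left_le {b : Mat} (hb : bᵀ * J * b = J) (hb0 : 0 < b o o) (M : Mat) :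
    fn (b * M) ≤ Real.exp (Real.arcosh (b o o)) * fn M := by
  have h1 : fn (b * M) ^ 2 ≤ (Real.exp (Real.arcosh (b o o)) * fn M) ^ 2 := by
    rw [mul_pow, fn_sq, fn_sq, ← Real.exp_nat_mul, Finset.sum_comm,
      Finset.sum_comm (f := fun i j => M i j ^ 2), Finset.mul_sum]
    refine Finset.sum_le_sum fun j _ => ?_
    have h2 := norm_mulVec_le hb hb0 (fun i => M i j)
    have h3 : ∀ i, (b * M) i j = (b *ᵥ (fun i => M i j)) i := fun i => rfl
    simp only [h3]
    push_cast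
    exact h2
  exact (sq_le_sq₀ (fn_nonneg _) (mul_nonneg (Real.exp_pos _).le (fn_nonneg _))).1 h1

theorem fn_mul_right_le {b : Mat} (hb : bᵀ * J * b = J) (hb0 : 0 < b o o) (M : Mat) :
    fn (M * b) ≤ Real.exp (Real.arcosh (b o o)) * fn M := by
  have h := fn_mul_left_le (transpose_lor hb) (show 0 < bᵀ o o from hb0) Mᵀ
  rw [← Matrix.transpose_mul, fn_transpose, fn_transpose, Matrix.transpose_apply] at h
  exact h

end B3b

open B3b

/-- the norm at `y` is the Frobenius norm in a frame at `y` -/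
theorem nrm_act {g : GLI} (hg : InG g) (A : Mat) :
    nrm (act g 0) A = fn ((g⁻¹ : GLI).val * A * g.val) := by
  unfold nrm
  rw [Qf_eq hg, Pf_eq hg]
  unfold fn
  rw [← trace_transpose_mul]
  congr 1
  rw [Matrix.transpose_mul, Matrix.transpose_mul]
  have e : g.val * (g.val)ᵀ * Aᵀ * (((g⁻¹ : GLI).val)ᵀ * (g⁻¹ : GLI).val) * A =
      g.val * ((g.val)ᵀ * (Aᵀ * ((g⁻¹ : GLI).val)ᵀ) * ((g⁻¹ : GLI).val * A)) := by
    simp only [mul_assoc]
  rw [e, Matrix.trace_mul_comm]
  simp only [mul_assoc]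

theorem nrm_zero (A : Mat) : nrm 0 A = fn A := by
  have h := nrm_act InG.one A
  rw [act_one] at h
  rw [h]; simp

theorem nrm_conj {g : GLI} (hg : InG g) (y : X) (A : Mat) :
    nrm (act g y) (g.val * A * (g⁻¹ : GLI).val) = nrm y A := by
  obtain ⟨h, hh, hy⟩ := exists_bst y
  rw [← hy, ← act_mul hh, nrm_act (hg.mul hh), nrm_act hh, _root_.mul_inv_rev, Units.val_mul,
    Units.val_mul]
  congr 1
  calc (h⁻¹ : GLI).val * (g⁻¹ : GLI).val * (g.val * A * (g⁻¹ : GLI).val) * (g.val * h.val)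
      = (h⁻¹ : GLI).val * ((g⁻¹ : GLI).val * g.val) * A * ((g⁻¹ : GLI).val * g.val) * h.val := by
        simp only [mul_assoc]
    _ = _ := by rw [Units.inv_mul, mul_one, mul_one]

theorem nrm_nonneg (y : X) (A : Mat) : 0 ≤ nrm y A := Real.sqrt_nonneg _

theorem nrm_add (y : X) (A B : Mat) : nrm y (A + B) ≤ nrm y A + nrm y B := by
  obtain ⟨h, hh, hy⟩ := exists_bst y
  rw [← hy, nrm_act hh, nrm_act hh, nrm_act hh, mul_add, add_mul]
  exact fn_add _ _

theorem nrm_sub (y : X) (A B : Mat) : nrm y (A - B) ≤ nrm y A + nrm y B := by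
  obtain ⟨h, hh, hy⟩ := exists_bst y
  rw [← hy, nrm_act hh, nrm_act hh, nrm_act hh, mul_sub, sub_mul]
  exact fn_sub _ _

theorem nrm_neg (y : X) (A : Mat) : nrm y (-A) = nrm y A := by
  obtain ⟨h, hh, hy⟩ := exists_bst y
  rw [← hy, nrm_act hh, nrm_act hh, mul_neg, neg_mul]
  exact fn_neg _

theorem nrm_smul (y : X) (c : ℝ) (A : Mat) : nrm y (c • A) = |c| * nrm y A := by
  obtain ⟨h, hh, hy⟩ := exists_bst y
  rw [← hy, nrm_act hh, nrm_act hh, Matrix.mul_smul, Matrix.smul_mul]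
  exact fn_smul _ _

theorem nrm_mul (y : X) (A B : Mat) : nrm y (A * B) ≤ nrm y A * nrm y B := by
  obtain ⟨h, hh, hy⟩ := exists_bst y
  rw [← hy, nrm_act hh, nrm_act hh, nrm_act hh]
  have e : (h⁻¹ : GLI).val * (A * B) * h.val =
      ((h⁻¹ : GLI).val * A * h.val) * ((h⁻¹ : GLI).val * B * h.val) := by
    calc (h⁻¹ : GLI).val * (A * B) * h.val
        = (h⁻¹ : GLI).val * A * 1 * B * h.val := by rw [mul_one]; simp only [mul_assoc]
      _ = _ := by rw [← Units.mul_inv h]; simp only [mul_assoc]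
  rw [e]
  exact fn_mul _ _

theorem nrm_eq_zero (y : X) (A : Mat) : nrm y A = 0 ↔ A = 0 := by
  obtain ⟨h, hh, hy⟩ := exists_bst y
  rw [← hy, nrm_act hh, fn_eq_zero]
  constructor
  · intro h0
    have e : A = h.val * ((h⁻¹ : GLI).val * A * h.val) * (h⁻¹ : GLI).val := by
      rw [← mul_assoc, ← mul_assoc, Units.mul_inv, one_mul, mul_assoc, Units.mul_inv, mul_one]
    rw [e, h0, mul_zero, zero_mul]
  · intro h0; rw [h0, mul_zero, zero_mul]

theorem continuous_nrm (A : Mat) : Continuous (fun y => nrm y A) := by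
  have hl := continuous_lift'
  have hv : Continuous fun y : X => Matrix.vecMulVec (lift y) (lift y) := by
    refine continuous_pi fun i => continuous_pi fun j => ?_
    exact ((continuous_apply i).comp hl).mul ((continuous_apply j).comp hl)
  unfold nrm
  refine Real.continuous_sqrt.comp ?_
  refine Continuous.matrix_trace ?_
  have hQ : Continuous fun y : X => Qf y := continuous_const.add (hv.const_smul 2)
  have hP : Continuous fun y : X => Pf y :=
    continuous_const.add (((continuous_const.matrix_mul hv).matrix_mul continuous_const).const_smul 2)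
  exact ((hQ.matrix_mul continuous_const).matrix_mul hP).matrix_mul continuous_const

/-- the norm is `exp(2 d)`-Lipschitz -/
theorem nrm_lip (x y : X) (A : Mat) : nrm y A ≤ Real.exp (2 * hd x y) * nrm x A := by
  obtain ⟨g, hg, hx⟩ := exists_bst x
  obtain ⟨h, hh, hy⟩ := exists_bst y
  rw [← hx, ← hy, nrm_act hh, nrm_act hg]
  set b : GLI := g⁻¹ * h with hb
  have hbG : InG b := hg.inv.mul hh
  have hbd : Real.arcosh (b.val o o) = hd (act g 0) (act h 0) := by
    rw [← gd_eq hg hh]; rfl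
  have hbi : ((b⁻¹ : GLI).val) o o = b.val o o := by
    rw [hbG.inv_val]
    simp [J, Matrix.mul_apply, Fintype.sum_sum_type, Matrix.fromBlocks]
  have e : (h⁻¹ : GLI).val * A * h.val =
      (b⁻¹ : GLI).val * (((g⁻¹ : GLI).val * A * g.val) * b.val) := by
    have e1 : (b⁻¹ : GLI) = h⁻¹ * g := by rw [hb, _root_.mul_inv_rev, inv_inv]
    rw [e1, hb, Units.val_mul, Units.val_mul]
    calc (h⁻¹ : GLI).val * A * h.val = (h⁻¹ : GLI).val * 1 * A * 1 * h.val := by
          rw [mul_one, mul_one]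
      _ = _ := by rw [← Units.mul_inv g]; simp only [mul_assoc]
  rw [e]
  have h1 := fn_mul_left_le hbG.inv.1 hbG.inv.2 (((g⁻¹ : GLI).val * A * g.val) * b.val)
  have h2 := fn_mul_right_le hbG.1 hbG.2 ((g⁻¹ : GLI).val * A * g.val)
  rw [hbi, hbd] at h1
  rw [hbd] at h2
  calc fn ((b⁻¹ : GLI).val * (((g⁻¹ : GLI).val * A * g.val) * b.val))
      ≤ Real.exp (hd (act g 0) (act h 0)) * fn (((g⁻¹ : GLI).val * A * g.val) * b.val) := h1
    _ ≤ Real.exp (hd (act g 0) (act h 0)) * (Real.exp (hd (act g 0) (act h 0)) *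
        fn ((g⁻¹ : GLI).val * A * g.val)) := mul_le_mul_of_nonneg_left h2 (Real.exp_pos _).le
    _ = _ := by rw [← mul_assoc, ← Real.exp_add, two_mul]

theorem sm_conj {g γ : GLI} (hg : InG g) (y : X) :
    sm (act g y) (g * γ * g⁻¹) = sm y γ := by
  unfold sm
  rw [← nrm_conj hg y (γ.val - 1)]
  congr 1
  rw [mul_sub, sub_mul, mul_one, Units.mul_inv, Units.val_mul, Units.val_mul]

theorem sm_frame {g : GLI} (hg : InG g) (γ : GLI) :
    sm (act g 0) γ = fn ((g⁻¹ * γ * g : GLI).val - 1) := by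
  unfold sm
  rw [nrm_act hg, mul_sub, sub_mul, mul_one, Units.inv_mul, Units.val_mul, Units.val_mul]

theorem sm_inv {γ : GLI} (hγ : InG γ) (y : X) : sm y γ⁻¹ = sm y γ := by
  obtain ⟨h, hh, hy⟩ := exists_bst y
  rw [← hy, sm_frame hh, sm_frame hh, ← fn_inv_sub_one ((hh.inv.mul hγ).mul hh)]
  congr 2
  group

theorem sm_lip (x y : X) (γ : GLI) : sm y γ ≤ Real.exp (2 * hd x y) * sm x γ := nrm_lip x y _

theorem sm_eq_zero (y : X) (γ : GLI) : sm y γ = 0 ↔ γ = 1 := by
  unfold sm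
  rw [nrm_eq_zero, sub_eq_zero]
  constructor
  · intro h; exact Units.ext h
  · intro h; rw [h]; rfl

/-- small in norm implies small displacement -/
theorem ch_le_of_sm {γ : GLI} (hγ : InG γ) (y : X) : ch y (act γ y) ≤ 1 + sm y γ := by
  obtain ⟨h, hh, hy⟩ := exists_bst y
  rw [← hy, sm_frame hh]
  have h1 : ch (act h 0) (act γ (act h 0)) = (h⁻¹ * γ * h : GLI).val o o := by
    rw [← act_mul hh, ← gch_eq hh (hγ.mul hh)]
    unfold gch
    rw [mul_assoc]
  rw [h1]
  have h2 := abs_entry_le_fn ((h⁻¹ * γ * h : GLI).val - 1) o o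
  rw [Matrix.sub_apply, Matrix.one_apply_eq] at h2
  have := le_abs_self ((h⁻¹ * γ * h : GLI).val o o - 1)
  linarith

/-- bounded displacement implies bounded norm -/
theorem nrm_le_of_ch {γ : GLI} (hγ : InG γ) (y : X) :
    nrm y γ.val ≤ Real.sqrt (1 + 4 * ch y (act γ y) ^ 2) := by
  obtain ⟨h, hh, hy⟩ := exists_bst y
  rw [← hy, nrm_act hh]
  have h1 : ch (act h 0) (act γ (act h 0)) = (h⁻¹ * γ * h : GLI).val o o := by
    rw [← act_mul hh, ← gch_eq hh (hγ.mul hh)]
    unfold gch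
    rw [mul_assoc]
  rw [h1, ← fn_sq_of_inG ((hh.inv.mul hγ).mul hh), Real.sqrt_sq (fn_nonneg _), Units.val_mul,
    Units.val_mul]

/-- products and inverses -/
theorem sm_mul {γ δ : GLI} (y : X) : sm y (γ * δ) ≤ sm y γ + sm y δ + sm y γ * sm y δ := by
  unfold sm
  have e : (γ * δ : GLI).val - 1 = (γ.val - 1) + (δ.val - 1) + (γ.val - 1) * (δ.val - 1) := by
    rw [Units.val_mul]; noncomm_ring
  rw [e]
  exact (nrm_add _ _ _).trans (add_le_add (nrm_add _ _ _) (nrm_mul _ _ _))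

end Pool.Agent.helper21.WB
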