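import Pool.Agent.helper26.WB.Exp

/-! MP_7b8095_gt, module Z6: small elements of a discrete group are bounded words in three elements. -/

set_option autoImplicit false
open Matrix NormedSpace Module Submodule

namespace Pool.Agent.helper21.WB

namespace Z6

/-! ### commuting logarithms -/

theorem exp_mul_neg (A : Mat) : exp A * exp (-A) = 1 := by
  rw [← Matrix.exp_add_of_commute _ _ (Commute.neg_right (Commute.refl A)), add_neg_cancel, exp_zero]

theorem exp_neg_mul (A : Mat) : exp (-A) * exp A = 1 := by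
  rw [← Matrix.exp_add_of_commute _ _ (Commute.neg_left (Commute.refl A)), neg_add_cancel, exp_zero]

/-- `exp A` as a unit -/
noncomputable def expU (A : Mat) : GLI := ⟨exp A, exp (-A), exp_mul_neg A, exp_neg_mul A⟩

theorem expU_val (A : Mat) : (expU A).val = exp A := rfl

theorem expU_inv (A : Mat) : (expU A)⁻¹ = expU (-A) := by
  apply Units.ext
  rw [expU_val]; rfl

theorem expU_zero : expU 0 = 1 := by
  apply Units.ext; rw [expU_val, exp_zero]; rfl

theorem expU_add {A B : Mat} (h : A * B = B * A) : expU (A + B) = expU A * expU B := by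
  apply Units.ext
  rw [Units.val_mul, expU_val, expU_val, expU_val, Matrix.exp_add_of_commute _ _ h]

variable {r : ℝ}

theorem nrm_exp_le (hr : r ≤ 1 / 3)
    (hb : ∀ (y : X) (A B : Mat), nrm y A ≤ r → nrm y B ≤ r →
      nrm y (A - B) ≤ 2 * nrm y (exp A - exp B) ∧ nrm y (exp A - exp B) ≤ 2 * nrm y (A - B))
    {y : X} {A : Mat} (hA : nrm y A ≤ r) : nrm y (exp A - 1) ≤ 2 * nrm y A ∧ nrm y (exp A) ≤ 3 := by
  have h0 : nrm y (0 : Mat) = 0 := (nrm_eq_zero y 0).2 rfl
  have h1 := (hb y A 0 hA (by rw [h0]; exact (nrm_nonneg y A).trans hA)).2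
  rw [exp_zero, sub_zero] at h1
  refine ⟨h1, ?_⟩
  have h2 := nrm_add y (exp A - 1) 1
  rw [sub_add_cancel, nrm_one] at h2
  have h3 := sqrt5_le
  linarith

theorem comm_aux
    (hb : ∀ (y : X) (A B : Mat), nrm y A ≤ r → nrm y B ≤ r →
      nrm y (A - B) ≤ 2 * nrm y (exp A - exp B) ∧ nrm y (exp A - exp B) ≤ 2 * nrm y (A - B))
    {y : X} {A : Mat} {U : GLI} (hA : 9 * nrm y A ≤ r) (hU : nrm y U.val ≤ 3)
    (hV : nrm y (U⁻¹ : GLI).val ≤ 3) (hc : U.val * exp A = exp A * U.val) :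
    U.val * A = A * U.val := by
  have hn := nrm_nonneg y A
  have h1 : nrm y (U.val * A * (U⁻¹ : GLI).val) ≤ 9 * nrm y A := by
    have a1 := nrm_mul y (U.val * A) (U⁻¹ : GLI).val
    have a2 := nrm_mul y U.val A
    have a3 : nrm y (U.val * A) ≤ 3 * nrm y A := a2.trans (mul_le_mul_of_nonneg_right hU hn)
    have a4 : nrm y (U.val * A) * nrm y (U⁻¹ : GLI).val ≤ (3 * nrm y A) * 3 :=
      mul_le_mul a3 hV (nrm_nonneg _ _) (by positivity)
    linarith
  have h2 := (hb y (U.val * A * (U⁻¹ : GLI).val) A (h1.trans hA) (by linarith)).1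
  rw [Matrix.exp_units_conj, hc, mul_assoc (exp A), Units.mul_inv, mul_one, sub_self,
    (nrm_eq_zero y 0).2 rfl, mul_zero] at h2
  have h3 := (nrm_eq_zero y _).1 (le_antisymm h2 (nrm_nonneg _ _))
  have h4 : U.val * A * (U⁻¹ : GLI).val = A := sub_eq_zero.1 h3
  calc U.val * A = U.val * A * ((U⁻¹ : GLI).val * U.val) := by rw [Units.inv_mul, mul_one]
    _ = (U.val * A * (U⁻¹ : GLI).val) * U.val := by simp only [mul_assoc]
    _ = A * U.val := by rw [h4]

theorem commute_log (hr : r ≤ 1 / 3)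
    (hb : ∀ (y : X) (A B : Mat), nrm y A ≤ r → nrm y B ≤ r →
      nrm y (A - B) ≤ 2 * nrm y (exp A - exp B) ∧ nrm y (exp A - exp B) ≤ 2 * nrm y (A - B))
    {y : X} {A B : Mat} (hA : 9 * nrm y A ≤ r) (hB : 9 * nrm y B ≤ r)
    (hc : exp A * exp B = exp B * exp A) : A * B = B * A := by
  have hnA := nrm_nonneg y A
  have hnB := nrm_nonneg y B
  have h1 : exp B * A = A * exp B := by
    refine comm_aux hb (U := expU B) hA (nrm_exp_le hr hb (by linarith)).2 ?_ hc.symm
    rw [expU_inv]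
    exact (nrm_exp_le hr hb (by rw [nrm_neg]; linarith)).2
  apply commute_of_exp
  intro t ht
  have h2 : nrm y (t • A) ≤ nrm y A := by
    rw [nrm_smul]; nlinarith
  refine comm_aux hb (U := expU (t • A)) hB (nrm_exp_le hr hb (by linarith)).2 ?_ ?_
  · rw [expU_inv]
    exact (nrm_exp_le hr hb (by rw [nrm_neg]; linarith)).2
  · have h3 : Commute (t • A) (exp B) := (show Commute A (exp B) from h1.symm).smul_left t
    rw [expU_val]
    exact (Commute.exp_left (𝔸 := Mat) h3)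

theorem isSo_log
    (hb : ∀ (y : X) (A B : Mat), nrm y A ≤ r → nrm y B ≤ r →
      nrm y (A - B) ≤ 2 * nrm y (exp A - exp B) ∧ nrm y (exp A - exp B) ≤ 2 * nrm y (A - B))
    {y : X} {A : Mat} {γ : GLI} (hγ : InG γ) (hA : 9 * nrm y A ≤ r) (he : exp A = γ.val) :
    IsSo A := by
  have hn := nrm_nonneg y A
  have h1 : exp (-A) = (γ⁻¹ : GLI).val := by
    have : expU A = γ := Units.ext he
    rw [← this, expU_inv]; rfl
  have hJu : J * J = 1 := J_mul_J
  set JU : GLI := ⟨J, J, hJu, hJu⟩ with hJU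
  have h2 : exp (J * Aᵀ * J) = (γ⁻¹ : GLI).val := by
    have : exp (JU.val * Aᵀ * (JU⁻¹ : GLI).val) = _ := Matrix.exp_units_conj JU Aᵀ
    rw [Matrix.exp_transpose, he] at this
    have h3 : (JU⁻¹ : GLI).val = J := rfl
    rw [h3] at this
    change exp (J * Aᵀ * J) = J * (γ.val)ᵀ * J at this
    rw [this, hγ.inv_val]
  have h3 := (hb y (-A) (J * Aᵀ * J) (by rw [nrm_neg]; linarith)
    ((nrm_JTJ y A).trans (by linarith))).1
  rw [h1, h2, sub_self, (nrm_eq_zero y 0).2 rfl, mul_zero] at h3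
  have h4 := sub_eq_zero.1 ((nrm_eq_zero y _).1 (le_antisymm h3 (nrm_nonneg _ _)))
  -- -A = J Aᵀ J
  unfold IsSo
  have h5 : J * (-A) = Aᵀ * J := by
    rw [h4, ← mul_assoc, ← mul_assoc, hJu, one_mul]
  rw [← h5, mul_neg, neg_add_cancel]

/-! ### abelian subspaces have dimension at most three -/

/-- `wedge ξ` as a linear map -/
noncomputable def wedgeL (ξ : I → ℝ) : (I → ℝ) →ₗ[ℝ] Mat where
  toFun w := wedge ξ w
  map_add' w w' := by
    unfold wedge
    rw [Matrix.mulVec_add, Matrix.add_vecMulVec, Matrix.vecMulVec_add]; abel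
  map_smul' c w := by
    unfold wedge
    rw [Matrix.mulVec_smul, Matrix.smul_vecMulVec, Matrix.vecMulVec_smul, ← smul_sub]; rfl

/-- `bl ξ` as a linear map -/
noncomputable def blL (ξ : I → ℝ) : (I → ℝ) →ₗ[ℝ] ℝ where
  toFun w := bl ξ w
  map_add' w w' := bl_add_right ξ w w'
  map_smul' c w := by rw [bl_smul_right]; rfl

/-- the statement of `abelian_three` -/
def Ab3 : Prop := ∀ A : Fin 3 → Mat, (∀ i, IsSo (A i)) → (∀ i j, A i * A j = A j * A i) →
    LinearIndependent ℝ A →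
    ∃ ξ : I → ℝ, NullF ξ ∧ ∀ B : Mat, IsSo B → (∀ i, B * A i = A i * B) →
      ∃ w : I → ℝ, bl ξ w = 0 ∧ B = wedge ξ w

/-- the statement of `zassenhaus` -/
def Zas : Prop := ∃ η₀ : ℝ, 0 < η₀ ∧ ∀ (Γ : Subgroup GLI), Disc Γ → ∀ (y : X),
    ∀ γ ∈ Γ, ∀ δ ∈ Γ, sm y γ ≤ η₀ → sm y δ ≤ η₀ → γ * δ = δ * γ

theorem finrank_le_three (hab : Ab3) {W : Submodule ℝ Mat} (hW : ∀ A ∈ W, IsSo A)
    (hc : ∀ A ∈ W, ∀ B ∈ W, A * B = B * A) : finrank ℝ W ≤ 3 := by
  by_contra hlt
  push Not at hlt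
  obtain ⟨b, hb⟩ := exists_linearIndependent_of_le_finrank (R := ℝ) (M := W) (n := 4) (by omega)
  have hb' : LinearIndependent ℝ (fun i => (b i : Mat)) :=
    hb.map' W.subtype (Submodule.ker_subtype W)
  obtain ⟨ξ, hξ, hall⟩ := hab (fun i : Fin 3 => (b i.castSucc : Mat))
    (fun i => hW _ (b i.castSucc).2)
    (fun i j => hc _ (b i.castSucc).2 _ (b j.castSucc).2)
    (hb'.comp Fin.castSucc (Fin.castSucc_injective 3))
  have hall' : ∀ i : Fin 4, ∃ w : I → ℝ, bl ξ w = 0 ∧ (b i : Mat) = wedge ξ w := fun i =>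
    hall _ (hW _ (b i).2) (fun j => hc _ (b i).2 _ (b j.castSucc).2)
  choose w hw hbw using hall'
  -- dimension count
  have hker : finrank ℝ (LinearMap.ker (blL ξ)) ≤ 4 := by
    have e1 := LinearMap.finrank_range_add_finrank_ker (blL ξ)
    have e2 : finrank ℝ (I → ℝ) = 5 := by simp
    have e3 : 0 < finrank ℝ (LinearMap.range (blL ξ)) := by
      rw [Module.finrank_pos_iff_exists_ne_zero]
      refine ⟨⟨blL ξ (Pi.single o 1), LinearMap.mem_range_self _ _⟩, ?_⟩
      intro h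
      have h2 : blL ξ (Pi.single o 1) = 0 := congrArg Subtype.val h
      change bl ξ (Pi.single o 1) = 0 at h2
      rw [bl_apply] at h2
      simp at h2
      exact hξ.2.ne' h2
    omega
  set L := (wedgeL ξ).domRestrict (LinearMap.ker (blL ξ)) with hL
  have e1 := LinearMap.finrank_range_add_finrank_ker L
  have e2 : 0 < finrank ℝ (LinearMap.ker L) := by
    rw [Nat.pos_iff_ne_zero]
    intro h0
    have h1 : LinearMap.ker L = ⊥ := Submodule.finrank_eq_zero.1 h0
    have h2 : (⟨ξ, by rw [LinearMap.mem_ker]; exact hξ.1⟩ : LinearMap.ker (blL ξ)) ∈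
        LinearMap.ker L := by
      rw [LinearMap.mem_ker]
      change wedge ξ ξ = 0
      unfold wedge; rw [sub_self]
    rw [h1, Submodule.mem_bot] at h2
    have h3 : ξ = 0 := congrArg Subtype.val h2
    have h4 := hξ.2
    rw [h3] at h4
    exact lt_irrefl _ h4
  have e3 : 4 ≤ finrank ℝ (LinearMap.range L) := by
    have hmem : ∀ i : Fin 4, (b i : Mat) ∈ LinearMap.range L := by
      intro i
      refine ⟨⟨w i, by rw [LinearMap.mem_ker]; exact hw i⟩, ?_⟩
      change wedge ξ (w i) = _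
      rw [hbw i]
    have h3 : LinearIndependent ℝ (fun i : Fin 4 => (⟨b i, hmem i⟩ : LinearMap.range L)) := by
      refine LinearIndependent.of_comp (LinearMap.range L).subtype ?_
      exact hb'
    simpa using h3.fintype_card_le_finrank
  omega

/-! ### words -/

/-- the value of a word -/
noncomputable def wd (a : Fin 3 → GLI) (l : List (Fin 3 × Bool)) : GLI :=
  (l.map (fun e => if e.2 then a e.1 else (a e.1)⁻¹)).prod

/-- the sum of a word -/
noncomputable def ws (v : Fin 3 → Mat) (l : List (Fin 3 × Bool)) : Mat :=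
  (l.map (fun e => if e.2 then v e.1 else -(v e.1))).sum

theorem nrm_ws_le (y : X) (v : Fin 3 → Mat) (l : List (Fin 3 × Bool)) :
    nrm y (ws v l) ≤ (l.map (fun e => nrm y (v e.1))).sum := by
  induction l with
  | nil => simp [ws, (nrm_eq_zero y 0).2 rfl]
  | cons e l ih =>
    have h1 : ws v (e :: l) = (if e.2 then v e.1 else -(v e.1)) + ws v l := by simp [ws]
    rw [h1, List.map_cons, List.sum_cons]
    refine (nrm_add y _ _).trans (add_le_add (le_of_eq ?_) ih)
    split_ifs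
    · rfl
    · rw [nrm_neg]

theorem ws_mem {Λ : AddSubgroup Mat} {v : Fin 3 → Mat} (hv : ∀ j, v j ∈ Λ)
    (l : List (Fin 3 × Bool)) : ws v l ∈ Λ := by
  induction l with
  | nil => simp [ws]
  | cons e l ih =>
    have h1 : ws v (e :: l) = (if e.2 then v e.1 else -(v e.1)) + ws v l := by simp [ws]
    rw [h1]
    refine Λ.add_mem ?_ ih
    split_ifs
    · exact hv _
    · exact Λ.neg_mem (hv _)

theorem wd_eq {Λ : AddSubgroup Mat} (hcomm : ∀ A ∈ Λ, ∀ B ∈ Λ, A * B = B * A) {v : Fin 3 → Mat}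
    (hv : ∀ j, v j ∈ Λ) {a : Fin 3 → GLI} (l : List (Fin 3 × Bool))
    (ha : ∀ e ∈ l, a e.1 = expU (v e.1)) : wd a l = expU (ws v l) := by
  induction l with
  | nil => simp [wd, ws, expU_zero]
  | cons e l ih =>
    have h1 : ws v (e :: l) = (if e.2 then v e.1 else -(v e.1)) + ws v l := by simp [ws]
    have h2 : wd a (e :: l) = (if e.2 then a e.1 else (a e.1)⁻¹) * wd a l := by simp [wd]
    have h3 : (if e.2 then v e.1 else -(v e.1)) ∈ Λ := by
      split_ifs
      · exact hv _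
      · exact Λ.neg_mem (hv _)
    rw [h1, h2, expU_add (hcomm _ h3 _ (ws_mem hv l)),
      ih (fun e' he' => ha e' (List.mem_cons_of_mem _ he')), ha e List.mem_cons_self]
    congr 1
    split_ifs
    · rfl
    · rw [expU_inv]

/-- the block of `n` letters `j` -/
def blk (j : Fin 3) (n : ℤ) : List (Fin 3 × Bool) := List.replicate n.natAbs (j, decide (0 ≤ n))

/-- the word of an integer vector -/
def wo (n : Fin 3 → ℤ) : List (Fin 3 × Bool) := blk 0 (n 0) ++ (blk 1 (n 1) ++ blk 2 (n 2))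

theorem wo_sum_map (n : Fin 3 → ℤ) {M : Type} [AddCommMonoid M] (f : Fin 3 × Bool → M) :
    ((wo n).map f).sum = ∑ j, (n j).natAbs • f (j, decide (0 ≤ n j)) := by
  unfold wo blk
  simp only [List.map_append, List.sum_append, List.map_replicate, List.sum_replicate]
  rw [Fin.sum_univ_three, add_assoc]

theorem wo_length (n : Fin 3 → ℤ) : (wo n).length = ∑ j, (n j).natAbs := by
  unfold wo blk
  simp only [List.length_append, List.length_replicate]
  rw [Fin.sum_univ_three, add_assoc]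

theorem ws_wo (v : Fin 3 → Mat) (n : Fin 3 → ℤ) : ws v (wo n) = ∑ j, n j • v j := by
  unfold ws
  rw [wo_sum_map]
  refine Finset.sum_congr rfl fun j _ => ?_
  by_cases h : 0 ≤ n j
  · simp only [h, decide_true, if_true]
    rw [← natCast_zsmul, Int.natAbs_of_nonneg h]
  · simp only [h, decide_false]
    push Not at h
    rw [if_neg (by simp), ← natCast_zsmul, smul_neg, ← neg_smul]
    congr 1
    omega

theorem mem_wo {n : Fin 3 → ℤ} {e : Fin 3 × Bool} (he : e ∈ wo n) : n e.1 ≠ 0 := by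
  unfold wo blk at he
  simp only [List.mem_append, List.mem_replicate] at he
  rcases he with ⟨h, rfl⟩ | ⟨h, rfl⟩ | ⟨h, rfl⟩ <;> simpa using h

/-! ### the Euclidean space of matrices at `y` -/

/-- matrices as a Euclidean space, in a frame -/
noncomputable def Psi (g : GLI) : Mat →ₗ[ℝ] EuclideanSpace ℝ (I × I) where
  toFun A := WithLp.toLp 2 (fun p => ((g⁻¹ : GLI).val * A * g.val) p.1 p.2)
  map_add' A B := by
    ext p
    simp [mul_add, add_mul]
  map_smul' c A := by
    ext p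
    simp

theorem norm_Psi (g : GLI) (A : Mat) : ‖Psi g A‖ = fn ((g⁻¹ : GLI).val * A * g.val) := by
  rw [EuclideanSpace.norm_eq, fn, Fintype.sum_prod_type]
  simp [Psi]

/-- matrices commuting with `B` -/
def cent (B : Mat) : Submodule ℝ Mat where
  carrier := {A | A * B = B * A}
  zero_mem' := by simp
  add_mem' := by
    intro a b ha hb
    simp only [Set.mem_ofPred_eq] at *
    rw [add_mul, mul_add, ha, hb]
  smul_mem' := by
    intro c a ha
    simp only [Set.mem_ofPred_eq] at *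
    rw [Matrix.smul_mul, Matrix.mul_smul, ha]

/-- the Lie algebra as a submodule -/
def soM : Submodule ℝ Mat where
  carrier := {A | IsSo A}
  zero_mem' := by simp [IsSo]
  add_mem' := by
    intro a b ha hb
    simp only [Set.mem_ofPred_eq, IsSo] at *
    rw [Matrix.transpose_add, add_mul, mul_add, add_add_add_comm, ha, hb, add_zero]
  smul_mem' := by
    intro c a ha
    simp only [Set.mem_ofPred_eq, IsSo] at *
    rw [Matrix.transpose_smul, Matrix.smul_mul, Matrix.mul_smul, ← smul_add, ha, smul_zero]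

theorem comm_span {L : Set Mat} (h : ∀ A ∈ L, ∀ B ∈ L, A * B = B * A) :
    ∀ A ∈ span ℝ L, ∀ B ∈ span ℝ L, A * B = B * A := by
  have h1 : ∀ B ∈ L, ∀ A ∈ span ℝ L, A * B = B * A := by
    intro B hB
    exact (Submodule.span_le (p := cent B)).2 (fun A hA => h A hA B hB)
  intro A hA
  have h2 : span ℝ L ≤ cent A := Submodule.span_le.2 (fun B hB => (h1 B hB A hA).symm)
  intro B hB
  exact (h2 hB).symm

end Z6

open Z6 in
/-- [Z6] generation of the small elements by three elements, with bounded words. -/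
theorem Z6.small_words_of (hzas : Zas) (hab : Ab3) : ∃ η₁ : ℝ, 0 < η₁ ∧ ∀ η : ℝ, 0 < η → η ≤ η₁ → ∃ η₀ C : ℝ, 0 < η₀ ∧ 0 < C ∧
    ∀ (Γ : Subgroup GLI), Disc Γ → ∀ (y : X) (s : ℝ), 0 < s → s ≤ 1 → (∀ γ ∈ Γ, γ ≠ 1 → s ≤ sm y γ) →
    ∃ a : Fin 3 → GLI, (∀ i, a i ∈ Γ ∧ sm y (a i) ≤ η) ∧
      ∀ γ ∈ Γ, sm y γ ≤ η₀ → ∃ l : List (Fin 3 × Bool), (l.length : ℝ) ≤ C / s ^ 3 ∧
        (l.map (fun e => if e.2 then a e.1 else (a e.1)⁻¹)).prod = γ ∧
        ∀ l', l' <+: l → sm y (l'.map (fun e => if e.2 then a e.1 else (a e.1)⁻¹)).prod ≤ η := by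
  classical
  obtain ⟨r, r', hr, hr', hr3, hb, hs⟩ := exp_local_nrm
  obtain ⟨ηZ, hηZ, hzas⟩ := hzas
  obtain ⟨κ, hκ, hkz⟩ := hkz (E := EuclideanSpace ℝ (I × I)) 3
  have hz : ∀ y, nrm y (0 : Mat) = 0 := fun y => (nrm_eq_zero y 0).2 rfl
  set ρ : ℝ := min (r / 9) (ηZ / 2) with hρ
  have hρ0 : 0 < ρ := by rw [hρ]; positivity
  have hρ1 : 9 * ρ ≤ r := by have := min_le_left (r / 9) (ηZ / 2); rw [← hρ] at this; linarith
  have hρ2 : 2 * ρ ≤ ηZ := by have := min_le_right (r / 9) (ηZ / 2); rw [← hρ] at this; linarith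
  refine ⟨1, one_pos, fun η hη hη1 => ?_⟩
  set η₀ : ℝ := min (min (ρ / 2) r') (min (r / (6 * κ)) (η / (12 * κ))) with hη₀
  have hη₀0 : 0 < η₀ := by rw [hη₀]; positivity
  have e1 : 2 * η₀ ≤ ρ := by
    have : η₀ ≤ ρ / 2 := (min_le_left _ _).trans (min_le_left _ _)
    linarith
  have e2 : η₀ ≤ r' := (min_le_left _ _).trans (min_le_right _ _)
  have e3 : 6 * κ * η₀ ≤ r := by
    have h : η₀ ≤ r / (6 * κ) := (min_le_right _ _).trans (min_le_left _ _)
    rw [le_div_iff₀ (by positivity)] at h; linarith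
  have e4 : 12 * κ * η₀ ≤ η := by
    have h : η₀ ≤ η / (12 * κ) := (min_le_right _ _).trans (min_le_right _ _)
    rw [le_div_iff₀ (by positivity)] at h; linarith
  set c₀ : ℝ := min (1 / 2) r with hc₀
  have hc0 : 0 < c₀ := by rw [hc₀]; positivity
  have hc1 : c₀ ≤ 1 / 2 := min_le_left _ _
  have hc2 : c₀ ≤ r := min_le_right _ _
  refine ⟨η₀, 6 * κ * η₀ / c₀, hη₀0, by positivity, fun Γ hΓ y s hs0 hs1 hsep => ?_⟩
  obtain ⟨g, hg, hgy⟩ := nrm_frame y
  have hnorm : ∀ A, ‖Psi g A‖ = nrm y A := fun A => by rw [norm_Psi, hgy]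
  -- logarithms
  set L : Set Mat := {A | nrm y A ≤ ρ ∧ ∃ γ ∈ Γ, γ.val = exp A} with hL
  have hLcomm : ∀ A ∈ L, ∀ B ∈ L, A * B = B * A := by
    rintro A ⟨hA, γ, hγ, hγA⟩ B ⟨hB, δ, hδ, hδB⟩
    have h1 : sm y γ ≤ ηZ := by
      unfold sm; rw [hγA]
      exact (nrm_exp_le hr3 hb (by linarith)).1.trans (by linarith)
    have h2 : sm y δ ≤ ηZ := by
      unfold sm; rw [hδB]
      exact (nrm_exp_le hr3 hb (by linarith)).1.trans (by linarith)
    have h3 := congrArg Units.val (hzas Γ hΓ y γ hγ δ hδ h1 h2)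
    rw [Units.val_mul, Units.val_mul, hγA, hδB] at h3
    exact commute_log hr3 hb (y := y) (by linarith) (by linarith) h3
  have hcommW := comm_span hLcomm
  have hsoW : ∀ A ∈ span ℝ L, IsSo A := by
    refine (Submodule.span_le (p := soM)).2 ?_
    rintro A ⟨hA, γ, hγ, hγA⟩
    exact isSo_log hb (hΓ.inG γ hγ) (by linarith : 9 * nrm y A ≤ r) hγA.symm
  set Λ : AddSubgroup Mat := AddSubgroup.closure L with hΛ
  have hΛW : ∀ A ∈ Λ, A ∈ span ℝ L := by
    have : Λ ≤ (span ℝ L).toAddSubgroup := by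
      rw [hΛ, AddSubgroup.closure_le]; exact subset_span
    exact this
  have hcommΛ : ∀ A ∈ Λ, ∀ B ∈ Λ, A * B = B * A := fun A hA B hB =>
    hcommW A (hΛW A hA) B (hΛW B hB)
  have hexp : ∀ A ∈ Λ, expU A ∈ Γ := by
    intro A hA
    induction hA using AddSubgroup.closure_induction with
    | mem x hx =>
      obtain ⟨hx1, γ, hγ, hγx⟩ := hx
      have : expU x = γ := Units.ext hγx.symm
      rw [this]; exact hγ
    | zero => rw [expU_zero]; exact Γ.one_mem
    | add x z hx hz' ihx ihz =>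
      rw [expU_add (hcommΛ x hx z hz')]; exact Γ.mul_mem ihx ihz
    | neg x hx ih => rw [← expU_inv]; exact Γ.inv_mem ih
  have hsepΛ : ∀ A ∈ Λ, A ≠ 0 → c₀ * s ≤ nrm y A := by
    intro A hA hA0
    by_contra hlt
    push Not at hlt
    have h1 : nrm y A ≤ r := by nlinarith
    have h2 := (nrm_exp_le hr3 hb h1).1
    have h3 : expU A = 1 := by
      by_contra hne
      have := hsep _ (hexp A hA) hne
      unfold sm at this
      rw [expU_val] at this
      nlinarith
    have h4 : exp A = 1 := congrArg Units.val h3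
    have h5 := (hb y A 0 h1 (by rw [hz]; exact hr.le)).1
    rw [sub_zero, exp_zero, h4, sub_self, hz, mul_zero] at h5
    exact hA0 ((nrm_eq_zero y A).1 (le_antisymm h5 (nrm_nonneg _ _)))
  -- the lattice in Euclidean space
  set Λ' : AddSubgroup (EuclideanSpace ℝ (I × I)) := Λ.map (Psi g).toAddMonoidHom with hΛ'
  have hinj : ∀ A B, Psi g A = Psi g B → A = B := by
    intro A B h
    have h1 : nrm y (A - B) = 0 := by rw [← hnorm, map_sub, h, sub_self, norm_zero]
    exact sub_eq_zero.1 ((nrm_eq_zero y _).1 h1)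
  have hsep' : ∀ x ∈ Λ', x ≠ 0 → c₀ * s ≤ ‖x‖ := by
    rintro x ⟨A, hA, rfl⟩ hx
    change c₀ * s ≤ ‖Psi g A‖
    rw [hnorm]
    refine hsepΛ A hA ?_
    rintro rfl
    exact hx (map_zero _)
  have hfr : finrank ℝ (span ℝ (Λ' : Set (EuclideanSpace ℝ (I × I)))) ≤ 3 := by
    have a1 : span ℝ (Λ' : Set (EuclideanSpace ℝ (I × I))) ≤ (span ℝ L).map (Psi g) := by
      rw [Submodule.span_le]
      rintro x ⟨A, hA, rfl⟩
      exact ⟨A, hΛW A hA, rfl⟩
    exact (Submodule.finrank_mono a1).trans ((Submodule.finrank_map_le _ _).trans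
      (finrank_le_three hab hsoW hcommW))
  obtain ⟨v', hv', hgen⟩ := hkz Λ' (c₀ * s) (by positivity) hsep' hfr
  choose v hvΛ hvv using hv'
  have hvv' : ∀ j, Psi g (v j) = v' j := hvv
  -- the three elements
  obtain ⟨a, ha⟩ : ∃ a : Fin 3 → GLI, a = fun j => if nrm y (v j) ≤ 2 * κ * η₀ then
    expU (v j) else 1 := ⟨_, rfl⟩
  refine ⟨a, fun j => ?_, fun γ hγ hγs => ?_⟩
  · rw [ha]
    dsimp only
    split_ifs with h
    · refine ⟨hexp _ (hvΛ j), ?_⟩
      unfold sm
      rw [expU_val]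
      have hk : 0 < κ * η₀ := by positivity
      exact (nrm_exp_le hr3 hb (by linarith)).1.trans (by linarith)
    · refine ⟨Γ.one_mem, ?_⟩
      unfold sm
      rw [Units.val_one, sub_self, hz]; exact hη.le
  -- a small element
  obtain ⟨A, hA, hAγ⟩ := hs y γ.val (hγs.trans e2)
  have hA2 : nrm y A ≤ 2 * η₀ := by
    have h := (hb y A 0 hA (by rw [hz]; exact hr.le)).1
    rw [sub_zero, exp_zero, hAγ] at h
    have : nrm y (γ.val - 1) = sm y γ := rfl
    linarith
  have hAΛ : A ∈ Λ := AddSubgroup.subset_closure ⟨hA2.trans e1, γ, hγ, hAγ.symm⟩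
  obtain ⟨n', hn', hnb'⟩ := hgen (Psi g A) ⟨A, hAΛ, rfl⟩
  have hnA' : A = ∑ j, n' j • v j := by
    apply hinj
    rw [hn', map_sum]
    refine Finset.sum_congr rfl fun j _ => ?_
    rw [map_zsmul, hvv']
  -- remove the zero vectors
  set n : Fin 3 → ℤ := fun j => if v j = 0 then 0 else n' j with hn
  have hnA : A = ∑ j, n j • v j := by
    rw [hnA']
    refine Finset.sum_congr rfl fun j _ => ?_
    simp only [hn]
    split_ifs with h
    · rw [h, smul_zero, smul_zero]
    · rfl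
  have hnb : ∀ j, |(n j : ℝ)| * nrm y (v j) ≤ 2 * κ * η₀ := by
    intro j
    have h1 := hnb' j
    rw [← hvv' j, hnorm, hnorm] at h1
    have h2 : κ * nrm y A ≤ 2 * κ * η₀ := by
      calc κ * nrm y A ≤ κ * (2 * η₀) := by gcongr
        _ = 2 * κ * η₀ := by ring
    simp only [hn]
    split_ifs with h
    · rw [Int.cast_zero, abs_zero, zero_mul]; positivity
    · exact h1.trans h2
  have hn1 : ∀ j, n j ≠ 0 → (1 : ℝ) ≤ |(n j : ℝ)| ∧ v j ≠ 0 := by
    intro j hj
    refine ⟨?_, ?_⟩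
    · rw [← Int.cast_abs]; exact_mod_cast Int.one_le_abs hj
    · intro h; apply hj; simp only [hn]; rw [if_pos h]
  have hsmall : ∀ j, n j ≠ 0 → nrm y (v j) ≤ 2 * κ * η₀ := by
    intro j hj
    have h1 := (hn1 j hj).1
    have h2 := hnb j
    have h3 := nrm_nonneg y (v j)
    nlinarith
  have hlen : ∀ j, (((n j).natAbs : ℕ) : ℝ) ≤ 2 * κ * η₀ / (c₀ * s) := by
    intro j
    rw [Nat.cast_natAbs, Int.cast_abs, le_div_iff₀ (by positivity)]
    by_cases hj : n j = 0
    · rw [hj, Int.cast_zero, abs_zero, zero_mul]; positivity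
    · have h1 := hsepΛ _ (hvΛ j) (hn1 j hj).2
      exact (mul_le_mul_of_nonneg_left h1 (abs_nonneg _)).trans (hnb j)
  refine ⟨wo n, ?_, ?_, ?_⟩
  · rw [wo_length, Nat.cast_sum]
    calc ∑ j : Fin 3, (((n j).natAbs : ℕ) : ℝ) ≤ ∑ j : Fin 3, 2 * κ * η₀ / (c₀ * s) :=
          Finset.sum_le_sum fun j _ => hlen j
      _ = 6 * κ * η₀ / c₀ / s := by
        rw [Finset.sum_const, Finset.card_univ, Fintype.card_fin, nsmul_eq_mul]
        field_simp; norm_num
      _ ≤ 6 * κ * η₀ / c₀ / s ^ 3 := by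
        apply div_le_div_of_nonneg_left (by positivity) (by positivity)
        calc s ^ 3 ≤ s ^ 1 := pow_le_pow_of_le_one hs0.le hs1 (by norm_num)
          _ = s := pow_one s
  · have h1 := wd_eq hcommΛ hvΛ (a := a)
      (wo n) (fun e he => by rw [ha]; exact if_pos (hsmall _ (mem_wo he)))
    rw [ws_wo, ← hnA] at h1
    have h2 : expU A = γ := Units.ext hAγ
    rw [h2] at h1
    exact h1
  · intro l' hl'
    have hsub : ∀ e ∈ l', e ∈ wo n := fun e he => hl'.subset he
    have h1 := wd_eq hcommΛ hvΛ (a := a)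
      l' (fun e he => by rw [ha]; exact if_pos (hsmall _ (mem_wo (hsub e he))))
    have h2 : nrm y (ws v l') ≤ 6 * κ * η₀ := by
      refine (nrm_ws_le y v l').trans ?_
      have h3 : (l'.map (fun e => nrm y (v e.1))).sum ≤ ((wo n).map (fun e => nrm y (v e.1))).sum := by
        refine List.Sublist.sum_le_sum (hl'.sublist.map _) ?_
        intro x hx
        rw [List.mem_map] at hx
        obtain ⟨e, -, rfl⟩ := hx
        exact nrm_nonneg _ _
      refine h3.trans ?_
      rw [wo_sum_map]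
      calc ∑ j : Fin 3, (n j).natAbs • nrm y (v j) ≤ ∑ j : Fin 3, 2 * κ * η₀ := by
            refine Finset.sum_le_sum fun j _ => ?_
            rw [nsmul_eq_mul, Nat.cast_natAbs, Int.cast_abs]
            exact hnb j
        _ = 6 * κ * η₀ := by
          rw [Finset.sum_const, Finset.card_univ, Fintype.card_fin, nsmul_eq_mul]; norm_num; ring
    have h4 : (l'.map (fun e => if e.2 then a e.1 else (a e.1)⁻¹)).prod = wd a l' := rfl
    rw [h4, h1]
    unfold sm
    rw [expU_val]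
    exact (nrm_exp_le hr3 hb (h2.trans e3)).1.trans (by linarith)

end Pool.Agent.helper21.WB
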