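import Pool.Agent.helper88.WB.MDefs
import Pool.Agent.helper19.WB.B1a
import Pool.Agent.helper39.WB.MA3
import Pool.Agent.helper70.WB.MK

/-! MP_7b8095_gt, module MC: the boundary map of a near isometry with a near inverse. -/

set_option autoImplicit false
open Matrix MeasureTheory Filter Topology

namespace Pool.Agent.helper88.WB
open Pool.Agent.helper21.WB

namespace MC

/-- the filter of neighbourhoods of a boundary point -/
noncomputable def nb (u : Fin 4 → ℝ) : Filter X := comap kp (𝓝 u)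

theorem tendsto_kp_nb (u : Fin 4 → ℝ) : Tendsto kp (nb u) (𝓝 u) := tendsto_comap

theorem tendsto_nb {α : Type} {l : Filter α} {x : α → X} {u : Fin 4 → ℝ} :
    Tendsto x l (nb u) ↔ Tendsto (fun n => kp (x n)) l (𝓝 u) := tendsto_comap_iff

theorem nb_neBot {u : Fin 4 → ℝ} (hu : u ∈ Sph) : (nb u).NeBot :=
  (tendsto_nb.2 (tendsto_kp_ray hu)).neBot

theorem bb_self {u : Fin 4 → ℝ} (hu : u ∈ Sph) : bb u u = 0 := by
  have h : ∑ i, u i * u i = ∑ i, u i ^ 2 := Finset.sum_congr rfl fun i _ => by ring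
  unfold bb
  rw [h, show ∑ i, u i ^ 2 = 1 from hu, sub_self]

theorem mem_Sph_of {u : Fin 4 → ℝ} (h : bb u u = 0) : u ∈ Sph := by
  have h2 : ∑ i, u i * u i = ∑ i, u i ^ 2 := Finset.sum_congr rfl fun i _ => by ring
  unfold bb at h
  rw [h2] at h
  change ∑ i, u i ^ 2 = 1
  linarith

theorem tendsto_bb {α : Type} {l : Filter α} {p q : α → Fin 4 → ℝ} {u v : Fin 4 → ℝ}
    (hp : Tendsto p l (𝓝 u)) (hq : Tendsto q l (𝓝 v)) :
    Tendsto (fun n => bb (p n) (q n)) l (𝓝 (bb u v)) := by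
  unfold bb
  refine tendsto_const_nhds.sub (tendsto_finsetSum _ fun i _ => ?_)
  exact ((tendsto_pi_nhds.1 hp) i).mul ((tendsto_pi_nhds.1 hq) i)

/-- the Gromov product tends to infinity -/
theorem tendsto_gp_filter {α : Type} {l : Filter α} {x y : α → X} {u : Fin 4 → ℝ} (hu : u ∈ Sph)
    (hx : Tendsto x l (nb u)) (hy : Tendsto y l (nb u)) :
    Tendsto (fun n => gp (x n) (y n) 0) l atTop := by
  have h1 : Tendsto (fun n => bb (kp (x n)) (kp (y n))) l (𝓝 0) := by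
    rw [← bb_self hu]
    exact tendsto_bb (tendsto_nb.1 hx) (tendsto_nb.1 hy)
  rw [tendsto_atTop]
  intro b
  have h2 : ∀ᶠ n in l, bb (kp (x n)) (kp (y n)) < 1 / 2 * Real.exp (-2 * b) :=
    h1.eventually (gt_mem_nhds (by positivity))
  filter_upwards [h2] with n hn
  have h3 := le_bb_kp (x n) (y n)
  have h4 : Real.exp (-2 * gp (x n) (y n) 0) < Real.exp (-2 * b) := by linarith
  have h5 := Real.exp_lt_exp.1 h4
  linarith

theorem gp_self (x w : X) : gp x x w = hd x w := by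
  unfold gp; rw [hd_self]; ring

theorem gp_base (x y w : X) : gp x y w - hd w 0 ≤ gp x y 0 := by
  unfold gp
  have h1 := hd_triangle x 0 w
  have h2 := hd_triangle y 0 w
  rw [hd_comm 0 w] at h1 h2
  linarith

/-- pairs with large Gromov product are close -/
theorem tendsto_sub {α : Type} {l : Filter α} {x y : α → X}
    (h : Tendsto (fun n => gp (x n) (y n) 0) l atTop) (i : Fin 4) :
    Tendsto (fun n => kp (x n) i - kp (y n) i) l (𝓝 0) := by
  rw [tendsto_zero_iff_abs_tendsto_zero]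
  have h1 : Tendsto (fun n => 3 * Real.exp (- gp (x n) (y n) 0)) l (𝓝 (3 * 0)) :=
    (Real.tendsto_exp_neg_atTop_nhds_zero.comp h).const_mul 3
  rw [mul_zero] at h1
  exact squeeze_zero (fun n => abs_nonneg _) (fun n => dist_kp _ _ i) h1

/-- two functions whose difference tends to zero -/
theorem tendsto_of_sub {α : Type} {l : Filter α} {p q : α → Fin 4 → ℝ} {u : Fin 4 → ℝ}
    (hp : Tendsto p l (𝓝 u)) (h : ∀ i, Tendsto (fun n => p n i - q n i) l (𝓝 0)) :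
    Tendsto q l (𝓝 u) := by
  rw [tendsto_pi_nhds] at hp ⊢
  intro i
  have := (hp i).sub (h i)
  rw [sub_zero] at this
  refine this.congr fun n => by ring

theorem tendsto_of_bdd' {α : Type} {l : Filter α} {x y : α → X} {u : Fin 4 → ℝ} (hu : u ∈ Sph)
    {a : ℝ} (hx : Tendsto x l (nb u)) (h : ∀ n, hd (y n) (x n) ≤ a) : Tendsto y l (nb u) := by
  rw [tendsto_nb]
  refine tendsto_of_sub (tendsto_nb.1 hx) fun i => tendsto_sub ?_ i
  have h1 : Tendsto (fun n => hd (x n) 0 - a) l atTop := by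
    have := tendsto_gp_filter hu hx hx
    simp only [gp_self] at this
    exact tendsto_atTop_add_const_right _ (-a) this
  refine tendsto_atTop_mono (fun n => ?_) h1
  unfold gp
  have h2 := hd_triangle (x n) (y n) 0
  have h3 := h n
  have h4 := hd_comm (x n) (y n)
  linarith

section limits

variable {F : X → X} {c C : ℝ}

/-- images of nearby points are nearby -/
theorem tendsto_gp_image (hc : 0 < c) (h : ∀ x y w, c * gp x y w - C ≤ gp (F x) (F y) (F w))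
    {α : Type} {l : Filter α} {x y : α → X} {u : Fin 4 → ℝ} (hu : u ∈ Sph)
    (hx : Tendsto x l (nb u)) (hy : Tendsto y l (nb u)) :
    Tendsto (fun n => gp (F (x n)) (F (y n)) 0) l atTop := by
  have h1 := tendsto_gp_filter hu hx hy
  have h2 : Tendsto (fun n => c * gp (x n) (y n) 0 + (-C - hd (F 0) 0)) l atTop :=
    tendsto_atTop_add_const_right _ _ (h1.const_mul_atTop hc)
  refine tendsto_atTop_mono (fun n => ?_) h2
  have h3 := h (x n) (y n) 0
  have h4 := gp_base (F (x n)) (F (y n)) (F 0)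
  linarith

theorem exists_limit (hc : 0 < c) (h : ∀ x y w, c * gp x y w - C ≤ gp (F x) (F y) (F w))
    {u : Fin 4 → ℝ} (hu : u ∈ Sph) :
    ∃ v ∈ Sph, Tendsto (fun x => kp (F x)) (nb u) (𝓝 v) := by
  have := nb_neBot hu
  have hcau : Cauchy (map (fun x => kp (F x)) (nb u)) := by
    rw [cauchy_map_iff]
    refine ⟨inferInstance, ?_⟩
    have h1 : Tendsto (fun p : X × X => gp (F p.1) (F p.2) 0) (nb u ×ˢ nb u) atTop :=
      tendsto_gp_image hc h hu tendsto_fst tendsto_snd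
    rw [Metric.uniformity_basis_dist.tendsto_right_iff]
    intro ε hε
    have h2 : ∀ i : Fin 4, ∀ᶠ p : X × X in nb u ×ˢ nb u, |kp (F p.1) i - kp (F p.2) i| < ε := by
      intro i
      have := tendsto_sub h1 i
      rw [tendsto_zero_iff_abs_tendsto_zero] at this
      exact this.eventually (gt_mem_nhds hε)
    have h3 := eventually_all.2 h2
    filter_upwards [h3] with p hp
    rw [dist_pi_lt_iff hε]
    intro i
    rw [Real.dist_eq]
    exact hp i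
  obtain ⟨v, hv⟩ := CompleteSpace.complete hcau
  refine ⟨v, mem_Sph_of ?_, hv⟩
  have h1 : Tendsto (fun x => bb (kp (F x)) (kp (F x))) (nb u) (𝓝 (bb v v)) := tendsto_bb hv hv
  have h2 : Tendsto (fun x => bb (kp (F x)) (kp (F x))) (nb u) (𝓝 0) := by
    have h3 : Tendsto (fun x => gp (F x) (F x) 0) (nb u) atTop :=
      tendsto_gp_image hc h hu tendsto_id tendsto_id
    have h4 : Tendsto (fun x => 4 * Real.exp (- (2 * gp (F x) (F x) 0))) (nb u) (𝓝 (4 * 0)) :=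
      (Real.tendsto_exp_neg_atTop_nhds_zero.comp (h3.const_mul_atTop two_pos)).const_mul 4
    rw [mul_zero] at h4
    refine squeeze_zero (fun x => ?_) (fun x => ?_) h4
    · have h5 := kp_norm_lt (F x)
      have h6 : ∑ i, kp (F x) i * kp (F x) i = ∑ i, kp (F x) i ^ 2 :=
        Finset.sum_congr rfl fun i _ => by ring
      unfold bb
      rw [h6]; linarith
    · have := bb_kp_le (F x) (F x)
      rw [neg_mul] at this
      exact this
  exact tendsto_nhds_unique h1 h2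

/-- limits along `nb u` depend continuously on `u` -/
theorem continuousOn_limit {θ : (Fin 4 → ℝ) → (Fin 4 → ℝ)}
    (hθ : ∀ u ∈ Sph, Tendsto (fun x => kp (F x)) (nb u) (𝓝 (θ u))) : ContinuousOn θ Sph := by
  intro u hu
  rw [ContinuousWithinAt, (closed_nhds_basis (θ u)).tendsto_right_iff]
  rintro U ⟨hU, hUc⟩
  have h1 : ∀ᶠ x in nb u, kp (F x) ∈ U := hθ u hu hU
  unfold nb at h1
  rw [eventually_comap] at h1
  have h2 := h1.eventually_nhds
  filter_upwards [mem_nhdsWithin_of_mem_nhds h2, self_mem_nhdsWithin] with u' hu' hu'S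
  have := nb_neBot hu'S
  refine hUc.mem_of_tendsto (hθ u' hu'S) ?_
  unfold nb
  rw [eventually_comap]
  exact hu'

end limits

theorem exp_div_two_le_cosh (t : ℝ) : Real.exp t / 2 ≤ Real.cosh t := by
  rw [Real.cosh_eq]; have := Real.exp_pos (-t); linarith

theorem cosh_le_exp {t : ℝ} (ht : 0 ≤ t) : Real.cosh t ≤ Real.exp t := by
  rw [Real.cosh_eq]
  have : Real.exp (-t) ≤ Real.exp t := Real.exp_le_exp.2 (by linarith)
  linarith

theorem le_ch_mul (x y z w : X) : Real.exp (hd x y + hd z w) / 4 ≤ ch x y * ch z w := by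
  rw [← cosh_hd, ← cosh_hd, Real.exp_add]
  have h1 := exp_div_two_le_cosh (hd x y)
  have h2 := exp_div_two_le_cosh (hd z w)
  have h3 := Real.exp_pos (hd x y)
  have h4 := Real.exp_pos (hd z w)
  calc Real.exp (hd x y) * Real.exp (hd z w) / 4
      = (Real.exp (hd x y) / 2) * (Real.exp (hd z w) / 2) := by ring
    _ ≤ _ := mul_le_mul h1 h2 (by positivity) (by linarith)

theorem ch_mul_le (x y z w : X) : ch x y * ch z w ≤ Real.exp (hd x y + hd z w) := by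
  rw [← cosh_hd, ← cosh_hd, Real.exp_add]
  have h1 := cosh_le_exp (hd_nonneg x y)
  have h2 := cosh_le_exp (hd_nonneg z w)
  exact mul_le_mul h1 h2 (Real.cosh_pos _).le (Real.exp_pos _).le

theorem bb_mul_kp (x y z w : X) : bb (kp x) (kp y) * bb (kp z) (kp w) =
    (ch x y * ch z w) / (ch 0 x * ch 0 y * ch 0 z * ch 0 w) := by
  rw [bb_kp, bb_kp, div_mul_div_comm]
  congr 1
  ring

theorem ch_pos (x y : X) : 0 < ch x y := lt_of_lt_of_le one_pos (one_le_ch x y)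

end MC

open MC

/-- the boundary map, with the statement of `coarse₂` as hypothesis -/
theorem MC.boundary_map_of (a : ℝ) (hco : ∃ D c C : ℝ, 0 < c ∧ c ≤ 1 ∧ 0 ≤ C ∧ ∀ F : X → X,
    NI D a F →
    (∀ x y, c * hd x y - C ≤ hd (F x) (F y)) ∧ (∀ x y, hd (F x) (F y) ≤ 2 * hd x y + C) ∧
    (∀ x y w, c * gp x y w - C ≤ gp (F x) (F y) (F w)) ∧
    (∀ x₁ x₂ x₃ x₄ : X, ∀ b : ℝ, 0 ≤ b → hd x₁ x₂ + hd x₃ x₄ ≤ hd x₁ x₃ + hd x₂ x₄ + b →
      hd (F x₁) (F x₂) + hd (F x₃) (F x₄) ≤ hd (F x₁) (F x₃) + hd (F x₂) (F x₄) + C * (1 + b))) :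
    ∃ D H : ℝ, 0 < H ∧ ∀ F F' : X → X, NI D a F → NI D a F' →
    (∀ x, hd (F' (F x)) x ≤ a) → (∀ x, hd (F (F' x)) x ≤ a) →
    ∃ θ θ' : (Fin 4 → ℝ) → (Fin 4 → ℝ), Set.MapsTo θ Sph Sph ∧ Set.MapsTo θ' Sph Sph ∧
      ContinuousOn θ Sph ∧ ContinuousOn θ' Sph ∧ (∀ u ∈ Sph, θ' (θ u) = u) ∧
      (∀ u ∈ Sph, θ (θ' u) = u) ∧
      (∀ (x : ℕ → X) (u : Fin 4 → ℝ), u ∈ Sph → Tendsto (fun n => kp (x n)) atTop (𝓝 u) →
        Tendsto (fun n => kp (F (x n))) atTop (𝓝 (θ u))) ∧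
      QM H θ := by
  classical
  obtain ⟨D, c, C, hc, hc1, hC, hF⟩ := hco
  refine ⟨D, 4 * Real.exp (C * (1 + 3)), by positivity, fun F F' h h' hinv hinv' => ?_⟩
  obtain ⟨-, -, hgp, h4⟩ := hF F h
  obtain ⟨-, -, hgp', -⟩ := hF F' h'
  have e1 : ∀ u : Fin 4 → ℝ, ∃ v, u ∈ Sph → v ∈ Sph ∧ Tendsto (fun x => kp (F x)) (nb u) (𝓝 v) := by
    intro u
    by_cases hu : u ∈ Sph
    · obtain ⟨v, hv, hv'⟩ := exists_limit hc hgp hu
      exact ⟨v, fun _ => ⟨hv, hv'⟩⟩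
    · exact ⟨0, fun hu' => absurd hu' hu⟩
  have e2 : ∀ u : Fin 4 → ℝ, ∃ v, u ∈ Sph → v ∈ Sph ∧ Tendsto (fun x => kp (F' x)) (nb u) (𝓝 v) := by
    intro u
    by_cases hu : u ∈ Sph
    · obtain ⟨v, hv, hv'⟩ := exists_limit hc hgp' hu
      exact ⟨v, fun _ => ⟨hv, hv'⟩⟩
    · exact ⟨0, fun hu' => absurd hu' hu⟩
  choose θ hθ using e1
  choose θ' hθ' using e2
  have hcomp : ∀ (A B : X → X) (α β : (Fin 4 → ℝ) → (Fin 4 → ℝ)),
      (∀ u, u ∈ Sph → α u ∈ Sph ∧ Tendsto (fun x => kp (A x)) (nb u) (𝓝 (α u))) →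
      (∀ u, u ∈ Sph → β u ∈ Sph ∧ Tendsto (fun x => kp (B x)) (nb u) (𝓝 (β u))) →
      (∀ x, hd (B (A x)) x ≤ a) → ∀ u ∈ Sph, β (α u) = u := by
    intro A B α β hα hβ hAB u hu
    have := nb_neBot hu
    have a1 : Tendsto A (nb u) (nb (α u)) := tendsto_nb.2 (hα u hu).2
    have a2 : Tendsto (fun x => kp (B (A x))) (nb u) (𝓝 (β (α u))) :=
      (hβ _ (hα u hu).1).2.comp a1
    have a3 : Tendsto (fun x => B (A x)) (nb u) (nb u) :=
      tendsto_of_bdd' hu (tendsto_id (α := X)) (a := a) (fun x => hAB x)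
    exact tendsto_nhds_unique a2 (tendsto_nb.1 a3)
  refine ⟨θ, θ', fun u hu => (hθ u hu).1, fun u hu => (hθ' u hu).1,
    continuousOn_limit (fun u hu => (hθ u hu).2), continuousOn_limit (fun u hu => (hθ' u hu).2),
    hcomp F F' θ θ' hθ hθ' hinv, hcomp F' F θ' θ hθ' hθ hinv', fun x u hu hx => ?_, ?_⟩
  · exact (hθ u hu).2.comp (tendsto_nb.2 hx)
  · intro u₁ hu₁ u₂ hu₂ u₃ hu₃ u₄ hu₄ hle
    have hpos : ∀ u ∈ Sph, ∀ v ∈ Sph, 0 ≤ bb u v := fun u hu v hv =>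
      bb_nonneg (Sph_subset_Bal hu) (Sph_subset_Bal hv)
    have t1 := (hθ u₁ hu₁).1
    have t2 := (hθ u₂ hu₂).1
    have t3 := (hθ u₃ hu₃).1
    have t4 := (hθ u₄ hu₄).1
    by_cases h0 : bb (θ u₁) (θ u₂) * bb (θ u₃) (θ u₄) = 0
    · rw [h0]
      have := mul_nonneg (hpos _ t1 _ t3) (hpos _ t2 _ t4)
      positivity
    have h12 : bb u₁ u₂ ≠ 0 := by
      intro h
      rw [bb_eq_zero hu₁ hu₂] at h
      apply h0; rw [h, bb_self t2, zero_mul]
    have h34 : bb u₃ u₄ ≠ 0 := by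
      intro h
      rw [bb_eq_zero hu₃ hu₄] at h
      apply h0; rw [h, bb_self t4, mul_zero]
    have hp12 : 0 < bb u₁ u₂ := lt_of_le_of_ne (hpos _ hu₁ _ hu₂) (Ne.symm h12)
    have hp34 : 0 < bb u₃ u₄ := lt_of_le_of_ne (hpos _ hu₃ _ hu₄) (Ne.symm h34)
    have hp : 0 < bb u₁ u₃ * bb u₂ u₄ := lt_of_lt_of_le (mul_pos hp12 hp34) hle
    have r : ∀ u ∈ Sph, Tendsto (ray u) atTop (nb u) := fun u hu => tendsto_nb.2 (tendsto_kp_ray hu)
    have r1 := r u₁ hu₁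
    have r2 := r u₂ hu₂
    have r3 := r u₃ hu₃
    have r4 := r u₄ hu₄
    have l1 : Tendsto (fun s => bb (kp (ray u₁ s)) (kp (ray u₂ s)) * bb (kp (ray u₃ s)) (kp (ray u₄ s)))
        atTop (𝓝 (bb u₁ u₂ * bb u₃ u₄)) :=
      (tendsto_bb (tendsto_nb.1 r1) (tendsto_nb.1 r2)).mul (tendsto_bb (tendsto_nb.1 r3) (tendsto_nb.1 r4))
    have l2 : Tendsto (fun s => bb (kp (ray u₁ s)) (kp (ray u₃ s)) * bb (kp (ray u₂ s)) (kp (ray u₄ s)))
        atTop (𝓝 (bb u₁ u₃ * bb u₂ u₄)) :=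
      (tendsto_bb (tendsto_nb.1 r1) (tendsto_nb.1 r3)).mul (tendsto_bb (tendsto_nb.1 r2) (tendsto_nb.1 r4))
    have hev := l1.eventually_lt (l2.const_mul 2) (by linarith)
    -- the images
    have m1 : Tendsto (fun s => bb (kp (F (ray u₁ s))) (kp (F (ray u₂ s))) *
        bb (kp (F (ray u₃ s))) (kp (F (ray u₄ s)))) atTop (𝓝 (bb (θ u₁) (θ u₂) * bb (θ u₃) (θ u₄))) :=
      (tendsto_bb ((hθ u₁ hu₁).2.comp r1) ((hθ u₂ hu₂).2.comp r2)).mul
        (tendsto_bb ((hθ u₃ hu₃).2.comp r3) ((hθ u₄ hu₄).2.comp r4))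
    have m2 : Tendsto (fun s => 4 * Real.exp (C * (1 + 3)) * (bb (kp (F (ray u₁ s))) (kp (F (ray u₃ s))) *
        bb (kp (F (ray u₂ s))) (kp (F (ray u₄ s))))) atTop
        (𝓝 (4 * Real.exp (C * (1 + 3)) * (bb (θ u₁) (θ u₃) * bb (θ u₂) (θ u₄)))) :=
      ((tendsto_bb ((hθ u₁ hu₁).2.comp r1) ((hθ u₃ hu₃).2.comp r3)).mul
        (tendsto_bb ((hθ u₂ hu₂).2.comp r2) ((hθ u₄ hu₄).2.comp r4))).const_mul _
    refine le_of_tendsto_of_tendsto m1 m2 ?_
    filter_upwards [hev] with s hs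
    set x₁ := ray u₁ s
    set x₂ := ray u₂ s
    set x₃ := ray u₃ s
    set x₄ := ray u₄ s
    rw [bb_mul_kp, bb_mul_kp] at hs
    have hprod : ∀ y₁ y₂ y₃ y₄ : X, 0 < ch 0 y₁ * ch 0 y₂ * ch 0 y₃ * ch 0 y₄ := by
      intro y₁ y₂ y₃ y₄
      have := ch_pos 0 y₁
      have := ch_pos 0 y₂
      have := ch_pos 0 y₃
      have := ch_pos 0 y₄
      positivity
    have hperm : ch 0 x₁ * ch 0 x₃ * ch 0 x₂ * ch 0 x₄ = ch 0 x₁ * ch 0 x₂ * ch 0 x₃ * ch 0 x₄ := by ring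
    rw [hperm, ← mul_div_assoc, div_lt_div_iff_of_pos_right (hprod _ _ _ _)] at hs
    have b1 := le_ch_mul x₁ x₂ x₃ x₄
    have b2 := ch_mul_le x₁ x₃ x₂ x₄
    have b3 : Real.exp (hd x₁ x₂ + hd x₃ x₄) ≤ Real.exp (hd x₁ x₃ + hd x₂ x₄ + 3) := by
      rw [Real.exp_add _ 3]
      have h8 : (8 : ℝ) ≤ Real.exp 3 := by
        have h1 : (2.7 : ℝ) ≤ Real.exp 1 := by linarith [Real.exp_one_gt_d9]
        have h2 : Real.exp 3 = Real.exp 1 ^ 3 := by rw [← Real.exp_nat_mul]; norm_num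
        rw [h2]
        calc (8:ℝ) ≤ 2.7 ^ 3 := by norm_num
          _ ≤ Real.exp 1 ^ 3 := by gcongr
      have h9 := Real.exp_pos (hd x₁ x₃ + hd x₂ x₄)
      nlinarith
    have b4 := Real.exp_le_exp.1 b3
    have b5 := h4 x₁ x₂ x₃ x₄ 3 (by norm_num) b4
    rw [bb_mul_kp, bb_mul_kp]
    have hperm' : ch 0 (F x₁) * ch 0 (F x₃) * ch 0 (F x₂) * ch 0 (F x₄) =
        ch 0 (F x₁) * ch 0 (F x₂) * ch 0 (F x₃) * ch 0 (F x₄) := by ring
    rw [hperm', ← mul_div_assoc, div_le_div_iff_of_pos_right (hprod _ _ _ _)]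
    have c1 := ch_mul_le (F x₁) (F x₂) (F x₃) (F x₄)
    have c2 := le_ch_mul (F x₁) (F x₃) (F x₂) (F x₄)
    have c3 : Real.exp (hd (F x₁) (F x₂) + hd (F x₃) (F x₄)) ≤
        Real.exp (hd (F x₁) (F x₃) + hd (F x₂) (F x₄)) * Real.exp (C * (1 + 3)) := by
      rw [← Real.exp_add]
      exact Real.exp_le_exp.2 b5
    have c4 := Real.exp_pos (C * (1 + 3))
    nlinarith

end Pool.Agent.helper88.WB
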