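import Mathlib

/-! Reduced bases (Hermite, Korkine, Zolotarev) of discrete subgroups: every vector `x` has coordinates
`n` with `|n j| ‖v j‖ ≤ κ ‖x‖`.  Helper file for MP_7b8095_gt, module Z6. -/

set_option autoImplicit false
set_option linter.unusedSectionVars false

namespace Pool.Agent.helper21.WB.Z6

open Module Submodule RealInnerProductSpace

variable {E : Type} [NormedAddCommGroup E] [InnerProductSpace ℝ E] [FiniteDimensional ℝ E]

/-- the projection orthogonal to `u` -/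
noncomputable def pr (u : E) : E →ₗ[ℝ] E :=
  LinearMap.id - (‖u‖ ^ 2)⁻¹ • (LinearMap.toSpanSingleton ℝ E u ∘ₗ (innerₛₗ ℝ u))

theorem pr_apply (u x : E) : pr u x = x - (⟪u, x⟫ / ‖u‖ ^ 2) • u := by
  simp [pr, smul_smul, div_eq_inv_mul]

theorem pr_self {u : E} (hu : u ≠ 0) : pr u u = 0 := by
  rw [pr_apply, real_inner_self_eq_norm_sq, div_self (by positivity), one_smul, sub_self]

theorem inner_pr {u : E} (hu : u ≠ 0) (x : E) : ⟪u, pr u x⟫ = 0 := by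
  rw [pr_apply, inner_sub_right, inner_smul_right, real_inner_self_eq_norm_sq,
    div_mul_cancel₀ _ (by positivity), sub_self]

theorem norm_add_sq_of {u y : E} (h : ⟪u, y⟫ = 0) (f : ℝ) :
    ‖y + f • u‖ ^ 2 = ‖y‖ ^ 2 + f ^ 2 * ‖u‖ ^ 2 := by
  rw [norm_add_sq_real, inner_smul_right, real_inner_comm, h, norm_smul, mul_pow,
    Real.norm_eq_abs, sq_abs]
  ring

theorem norm_pr_le {u : E} (hu : u ≠ 0) (x : E) : ‖pr u x‖ ≤ ‖x‖ := by
  have h1 := norm_add_sq_of (inner_pr hu x) (⟪u, x⟫ / ‖u‖ ^ 2)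
  have h2 : pr u x + (⟪u, x⟫ / ‖u‖ ^ 2) • u = x := by rw [pr_apply]; abel
  rw [h2] at h1
  have h3 : ‖pr u x‖ ^ 2 ≤ ‖x‖ ^ 2 := by rw [h1]; nlinarith [sq_nonneg (⟪u, x⟫ / ‖u‖ ^ 2 * ‖u‖)]
  exact (sq_le_sq₀ (norm_nonneg _) (norm_nonneg _)).1 h3

/-- reduce a vector of `Λ` modulo `u` -/
theorem reduce {Λ : AddSubgroup E} {u : E} (hu : u ∈ Λ) (hu0 : u ≠ 0) {x : E} (hx : x ∈ Λ) :
    ∃ x' ∈ Λ, pr u x' = pr u x ∧ ∃ f : ℝ, |f| ≤ 1 / 2 ∧ x' = pr u x + f • u := by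
  set c : ℝ := ⟪u, x⟫ / ‖u‖ ^ 2 with hc
  refine ⟨x - (round c) • u, Λ.sub_mem hx (Λ.zsmul_mem hu _), ?_, c - round c, ?_, ?_⟩
  · rw [map_sub, map_zsmul, pr_self hu0, smul_zero, sub_zero]
  · exact abs_sub_round c
  · rw [pr_apply, ← hc, sub_smul, Int.cast_smul_eq_zsmul]; abel

theorem hkz (r : ℕ) : ∃ κ : ℝ, 0 < κ ∧ ∀ (Λ : AddSubgroup E) (s : ℝ), 0 < s →
    (∀ v ∈ Λ, v ≠ 0 → s ≤ ‖v‖) → finrank ℝ (span ℝ (Λ : Set E)) ≤ r →
    ∃ v : Fin r → E, (∀ j, v j ∈ Λ) ∧ ∀ x ∈ Λ, ∃ n : Fin r → ℤ, x = ∑ j, n j • v j ∧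
      ∀ j, |(n j : ℝ)| * ‖v j‖ ≤ κ * ‖x‖ := by
  induction r with
  | zero =>
    refine ⟨1, one_pos, fun Λ s hs hsep hr => ⟨0, fun j => j.elim0, fun x hx => ⟨0, ?_, fun j => j.elim0⟩⟩⟩
    have h1 : span ℝ (Λ : Set E) = ⊥ := by
      rw [← Submodule.finrank_eq_zero (R := ℝ)]; omega
    have h2 : x ∈ span ℝ (Λ : Set E) := subset_span hx
    rw [h1, mem_bot] at h2
    simp [h2]
  | succ r ih =>
    obtain ⟨κ, hκ, ih⟩ := ih
    refine ⟨1 + 2 * (r + 1) * κ, by positivity, fun Λ s hs hsep hr => ?_⟩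
    by_cases h0 : ∀ v ∈ Λ, v = 0
    · refine ⟨0, fun j => Λ.zero_mem, fun x hx => ⟨0, by simp [h0 x hx], fun j => ?_⟩⟩
      simp only [Pi.zero_apply, Int.cast_zero, abs_zero, zero_mul]
      positivity
    push Not at h0
    obtain ⟨v₀, hv₀, hv₀0⟩ := h0
    -- an almost shortest vector
    set S : Set ℝ := {t | ∃ v ∈ Λ, v ≠ 0 ∧ t = ‖v‖} with hS
    have hSne : S.Nonempty := ⟨‖v₀‖, v₀, hv₀, hv₀0, rfl⟩
    have hSb : BddBelow S := ⟨s, by rintro t ⟨v, hv, hv0, rfl⟩; exact hsep v hv hv0⟩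
    set m := sInf S with hm
    have hms : s ≤ m := le_csInf hSne (by rintro t ⟨v, hv, hv0, rfl⟩; exact hsep v hv hv0)
    have hm0 : 0 < m := lt_of_lt_of_le hs hms
    have hmle : ∀ v ∈ Λ, v ≠ 0 → m ≤ ‖v‖ := fun v hv hv0 => csInf_le hSb ⟨v, hv, hv0, rfl⟩
    obtain ⟨t, ⟨u, hu, hu0, rfl⟩, hut⟩ := exists_lt_of_csInf_lt hSne
      (show sInf S < 11 / 10 * m by rw [← hm]; linarith)
    have hu' : 0 < ‖u‖ := norm_pos_iff.2 hu0
    -- the projected lattice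
    set Λ' : AddSubgroup E := Λ.map (pr u).toAddMonoidHom with hΛ'
    have hsep' : ∀ y ∈ Λ', y ≠ 0 → ‖u‖ ^ 2 / 2 ≤ ‖y‖ ^ 2 := by
      rintro y ⟨x, hx, rfl⟩ hy
      have hy' : pr u x ≠ 0 := hy
      change ‖u‖ ^ 2 / 2 ≤ ‖pr u x‖ ^ 2
      obtain ⟨x', hx', hp, f, hf, hxf⟩ := reduce hu hu0 hx
      have hx0 : x' ≠ 0 := by
        rintro rfl; rw [map_zero] at hp; exact hy' hp.symm
      have h1 := hmle x' hx' hx0
      have h2 : ‖x'‖ ^ 2 = ‖pr u x‖ ^ 2 + f ^ 2 * ‖u‖ ^ 2 := by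
        rw [hxf]; exact norm_add_sq_of (inner_pr hu0 x) f
      have h3 : f ^ 2 ≤ 1 / 4 := by
        rw [← sq_abs]; nlinarith [abs_nonneg f]
      have h4 : m ^ 2 ≤ ‖x'‖ ^ 2 := by gcongr
      have h5 : ‖u‖ ^ 2 ≤ (11 / 10 * m) ^ 2 := by gcongr
      nlinarith [sq_nonneg ‖u‖]
    have hr' : finrank ℝ (span ℝ (Λ' : Set E)) ≤ r := by
      have e1 : span ℝ (Λ' : Set E) = (span ℝ (Λ : Set E)).map (pr u) := by
        rw [Submodule.map_span]; rfl
      have e2 := LinearMap.finrank_range_add_finrank_ker ((pr u).domRestrict (span ℝ (Λ : Set E)))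
      have e3 : LinearMap.range ((pr u).domRestrict (span ℝ (Λ : Set E))) =
          (span ℝ (Λ : Set E)).map (pr u) := by
        rw [LinearMap.range_domRestrict]
      rw [e3, ← e1] at e2
      have e4 : 0 < finrank ℝ (LinearMap.ker ((pr u).domRestrict (span ℝ (Λ : Set E)))) := by
        rw [Module.finrank_pos_iff_exists_ne_zero]
        refine ⟨⟨⟨u, subset_span hu⟩, ?_⟩, ?_⟩
        · rw [LinearMap.mem_ker, LinearMap.domRestrict_apply]; exact pr_self hu0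
        · intro h
          apply hu0
          have := congrArg (fun z => (z.1 : E)) h
          simpa using this
      omega
    obtain ⟨v', hv', hgen⟩ := ih Λ' (‖u‖ / 2) (by positivity)
      (fun y hy hy0 => by
        have := hsep' y hy hy0
        have h2 : (‖u‖ / 2) ^ 2 ≤ ‖y‖ ^ 2 := by nlinarith
        exact (sq_le_sq₀ (by positivity) (norm_nonneg _)).1 h2) hr'
    -- lifts
    have hlift : ∀ j, ∃ w ∈ Λ, pr u w = v' j ∧ ‖w‖ ≤ 2 * ‖v' j‖ := by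
      intro j
      by_cases hj : v' j = 0
      · exact ⟨0, Λ.zero_mem, by rw [map_zero, hj], by rw [hj]; simp⟩
      · obtain ⟨x, hx, hxj⟩ := hv' j
        have hxj' : pr u x = v' j := hxj
        obtain ⟨x', hx', hp, f, hf, hxf⟩ := reduce hu hu0 hx
        refine ⟨x', hx', by rw [hp, hxj'], ?_⟩
        have h2 : ‖x'‖ ^ 2 = ‖v' j‖ ^ 2 + f ^ 2 * ‖u‖ ^ 2 := by
          rw [hxf, ← hxj']; exact norm_add_sq_of (inner_pr hu0 x) f
        have h3 : f ^ 2 ≤ 1 / 4 := by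
          rw [← sq_abs]; nlinarith [abs_nonneg f]
        have h4 := hsep' _ (hv' j) hj
        have h5 : ‖x'‖ ^ 2 ≤ (2 * ‖v' j‖) ^ 2 := by nlinarith [sq_nonneg ‖u‖]
        exact (sq_le_sq₀ (norm_nonneg _) (by positivity)).1 h5
    choose w hwΛ hwp hwn using hlift
    refine ⟨Fin.cons u w, fun j => ?_, fun x hx => ?_⟩
    · refine Fin.cases ?_ (fun j => ?_) j
      · simpa using hu
      · simpa using hwΛ j
    obtain ⟨n, hn, hnb⟩ := hgen (pr u x) ⟨x, hx, rfl⟩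
    have hnb' : ∀ j, |(n j : ℝ)| * ‖w j‖ ≤ 2 * κ * ‖x‖ := by
      intro j
      calc |(n j : ℝ)| * ‖w j‖ ≤ |(n j : ℝ)| * (2 * ‖v' j‖) := by gcongr; exact hwn j
        _ = 2 * (|(n j : ℝ)| * ‖v' j‖) := by ring
        _ ≤ 2 * (κ * ‖pr u x‖) := mul_le_mul_of_nonneg_left (hnb j) (by norm_num)
        _ ≤ 2 * (κ * ‖x‖) := by gcongr; exact norm_pr_le hu0 x
        _ = 2 * κ * ‖x‖ := by ring
    set z := x - ∑ j, n j • w j with hz
    have hzΛ : z ∈ Λ := Λ.sub_mem hx (Λ.sum_mem fun j _ => Λ.zsmul_mem (hwΛ j) _)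
    have hpz : pr u z = 0 := by
      rw [hz, map_sub, map_sum, hn]
      simp only [map_zsmul, hwp, sub_self]
    obtain ⟨z', hz', hp', f, hf, hzf⟩ := reduce hu hu0 hzΛ
    -- z is an integer multiple of u
    have hzc : z = (⟪u, z⟫ / ‖u‖ ^ 2) • u := by
      have := pr_apply u z
      rw [hpz] at this
      exact (sub_eq_zero.1 this.symm)
    set c := ⟪u, z⟫ / ‖u‖ ^ 2 with hc
    have hround : z - (round c) • u = 0 := by
      by_contra hne
      have h1 := hmle _ (Λ.sub_mem hzΛ (Λ.zsmul_mem hu (round c))) hne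
      have h2 : z - (round c) • u = (c - round c) • u := by
        rw [sub_smul, ← hzc, Int.cast_smul_eq_zsmul]
      rw [h2, norm_smul, Real.norm_eq_abs] at h1
      have h3 := abs_sub_round c
      nlinarith [abs_nonneg (c - round c)]
    have hz2 : z = (round c) • u := sub_eq_zero.1 hround
    have hznorm : ‖z‖ ≤ ‖x‖ + 2 * r * κ * ‖x‖ := by
      calc ‖z‖ ≤ ‖x‖ + ‖∑ j, n j • w j‖ := norm_sub_le _ _
        _ ≤ ‖x‖ + ∑ j, ‖n j • w j‖ := by gcongr; exact norm_sum_le _ _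
        _ ≤ ‖x‖ + ∑ j : Fin r, 2 * κ * ‖x‖ := by
          gcongr with j
          rw [← Int.cast_smul_eq_zsmul ℝ, norm_smul, Real.norm_eq_abs]
          exact hnb' j
        _ = ‖x‖ + 2 * r * κ * ‖x‖ := by
          rw [Finset.sum_const, Finset.card_univ, Fintype.card_fin, nsmul_eq_mul]; ring
    refine ⟨Fin.cons (round c) n, ?_, fun j => ?_⟩
    · rw [Fin.sum_univ_succ]
      simp only [Fin.cons_zero, Fin.cons_succ]
      rw [← hz2, hz]; abel
    · refine Fin.cases ?_ (fun j => ?_) j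
      · simp only [Fin.cons_zero]
        have : |((round c : ℤ) : ℝ)| * ‖u‖ = ‖z‖ := by
          conv_rhs => rw [hz2, ← Int.cast_smul_eq_zsmul ℝ, norm_smul, Real.norm_eq_abs]
        rw [this]
        have h1 : 0 ≤ κ * ‖x‖ := by positivity
        nlinarith
      · simp only [Fin.cons_succ]
        refine (hnb' j).trans ?_
        have h1 : 0 ≤ κ * ‖x‖ := by positivity
        have h2 : (0:ℝ) ≤ r := Nat.cast_nonneg r
        have h3 : 0 ≤ r * (κ * ‖x‖) := by positivity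
        nlinarith [norm_nonneg x]

end Pool.Agent.helper21.WB.Z6
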