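import Pool.Agent.helper21.WB.Defs2
import Pool.Agent.helper26.WB.B3b
import Pool.Agent.helper26.WB.Hkz

/-! Local properties of the matrix exponential in the norms `nrm y`.
Helper file for MP_7b8095_gt, module Z6. -/

set_option autoImplicit false
open Matrix NormedSpace Filter Topology

namespace Pool.Agent.helper21.WB.Z6

section frob

attribute [local instance] Matrix.frobeniusNormedRing Matrix.frobeniusNormedAlgebra

theorem norm_eq_fn (A : Mat) : ‖A‖ = fn A := by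
  rw [Matrix.frobenius_norm_def, fn, Real.sqrt_eq_rpow]
  simp

theorem exp_local : ∃ r r' : ℝ, 0 < r ∧ 0 < r' ∧ r ≤ 1 / 3 ∧
    (∀ A B : Mat, fn A ≤ r → fn B ≤ r →
      fn (A - B) ≤ 2 * fn (exp A - exp B) ∧ fn (exp A - exp B) ≤ 2 * fn (A - B)) ∧
    (∀ M : Mat, fn (M - 1) ≤ r' → ∃ A : Mat, fn A ≤ r ∧ exp A = M) := by
  have hd := hasStrictFDerivAt_exp_zero (𝕂 := ℝ) (𝔸 := Mat)
  have h1 := hd.isLittleO.def (show (0:ℝ) < 1 / 2 by norm_num)
  rw [Metric.eventually_nhds_iff] at h1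
  obtain ⟨ε, hε, h1⟩ := h1
  set r : ℝ := min (ε / 2) (1 / 3) with hr
  have hr0 : 0 < r := by rw [hr]; positivity
  have hbi : ∀ A B : Mat, fn A ≤ r → fn B ≤ r →
      fn (A - B) ≤ 2 * fn (exp A - exp B) ∧ fn (exp A - exp B) ≤ 2 * fn (A - B) := by
    intro A B hA hB
    have hlt : r < ε := lt_of_le_of_lt (min_le_left _ _) (by linarith)
    have h2 : dist (A, B) ((0:Mat), (0:Mat)) < ε := by
      rw [Prod.dist_eq, max_lt_iff]
      simp only [dist_zero_right, norm_eq_fn]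
      exact ⟨lt_of_le_of_lt hA hlt, lt_of_le_of_lt hB hlt⟩
    have h3 : ‖exp A - exp B - (A - B)‖ ≤ 1 / 2 * ‖A - B‖ := by
      have h := h1 h2
      simp only [one_apply_eq_self] at h
      exact h
    have h4 : ‖(A - B)‖ ≤ ‖exp A - exp B‖ + ‖exp A - exp B - (A - B)‖ := by
      have := norm_sub_norm_le (A - B) (exp A - exp B)
      have h5 : ‖A - B - (exp A - exp B)‖ = ‖exp A - exp B - (A - B)‖ := norm_sub_rev _ _
      linarith
    have h6 : ‖exp A - exp B‖ ≤ ‖A - B‖ + ‖exp A - exp B - (A - B)‖ := by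
      have := norm_sub_norm_le (exp A - exp B) (A - B)
      linarith
    rw [← norm_eq_fn, ← norm_eq_fn]
    constructor
    · linarith
    · have := norm_nonneg (A - B); linarith
  have hmap : map (exp : Mat → Mat) (𝓝 0) = 𝓝 (exp 0) :=
    HasStrictFDerivAt.map_nhds_eq_of_equiv (f' := ContinuousLinearEquiv.refl ℝ Mat) hd
  have hball : Metric.closedBall (0 : Mat) r ∈ 𝓝 (0 : Mat) := Metric.closedBall_mem_nhds _ hr0
  have himg : (exp : Mat → Mat) '' Metric.closedBall (0 : Mat) r ∈ 𝓝 (exp (0 : Mat)) := by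
    rw [← hmap]; exact image_mem_map hball
  rw [exp_zero] at himg
  obtain ⟨r', hr', himg⟩ := (Metric.nhds_basis_closedBall (x := (1 : Mat))).mem_iff.1 himg
  refine ⟨r, r', hr0, hr', min_le_right _ _, hbi, fun M hM => ?_⟩
  obtain ⟨A, hA, hAM⟩ := himg (show M ∈ Metric.closedBall (1 : Mat) r' by
    rw [Metric.mem_closedBall, dist_eq_norm, norm_eq_fn]; exact hM)
  refine ⟨A, ?_, hAM⟩
  rw [Metric.mem_closedBall, dist_zero_right, norm_eq_fn] at hA
  exact hA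

/-- commuting with the one parameter group near zero -/
theorem commute_of_exp {A B : Mat} (h : ∀ t : ℝ, |t| ≤ 1 → exp (t • A) * B = B * exp (t • A)) :
    A * B = B * A := by
  have h1 : HasDerivAt (fun u : ℝ => exp (u • A)) (A * exp ((0:ℝ) • A)) 0 :=
    hasDerivAt_exp_smul_const' (𝕂 := ℝ) A (0:ℝ)
  rw [zero_smul, exp_zero, mul_one] at h1
  have h2 : HasDerivAt (fun u : ℝ => exp (u • A) * B) (A * B) 0 := h1.mul_const B
  have h3 : HasDerivAt (fun u : ℝ => B * exp (u • A)) (B * A) 0 := h1.const_mul B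
  have h4 : (fun u : ℝ => exp (u • A) * B) =ᶠ[𝓝 0] (fun u : ℝ => B * exp (u • A)) := by
    filter_upwards [Metric.closedBall_mem_nhds (0:ℝ) one_pos] with t ht
    apply h
    rwa [Metric.mem_closedBall, dist_zero_right, Real.norm_eq_abs] at ht
  exact h2.unique (h3.congr_of_eventuallyEq h4)

end frob

theorem nrm_frame (y : X) : ∃ g : GLI, InG g ∧ ∀ A : Mat,
    nrm y A = fn ((g⁻¹ : GLI).val * A * g.val) := by
  obtain ⟨g, hg, hy⟩ := exists_bst y
  exact ⟨g, hg, fun A => by rw [← nrm_act hg, hy]⟩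

theorem exp_local_nrm : ∃ r r' : ℝ, 0 < r ∧ 0 < r' ∧ r ≤ 1 / 3 ∧
    (∀ (y : X) (A B : Mat), nrm y A ≤ r → nrm y B ≤ r →
      nrm y (A - B) ≤ 2 * nrm y (exp A - exp B) ∧ nrm y (exp A - exp B) ≤ 2 * nrm y (A - B)) ∧
    (∀ (y : X) (M : Mat), nrm y (M - 1) ≤ r' → ∃ A : Mat, nrm y A ≤ r ∧ exp A = M) := by
  obtain ⟨r, r', hr, hr', h3, hb, hs⟩ := exp_local
  refine ⟨r, r', hr, hr', h3, fun y A B hA hB => ?_, fun y M hM => ?_⟩
  · obtain ⟨g, hg, hy⟩ := nrm_frame y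
    have e1 := hb _ _ (by rw [← hy]; exact hA) (by rw [← hy]; exact hB)
    rw [Matrix.exp_units_conj', Matrix.exp_units_conj'] at e1
    have e2 : ∀ P Q : Mat, (g⁻¹ : GLI).val * (P - Q) * g.val =
        (g⁻¹ : GLI).val * P * g.val - (g⁻¹ : GLI).val * Q * g.val := by
      intro P Q; rw [mul_sub, sub_mul]
    rw [hy, hy, e2, e2]
    exact e1
  · obtain ⟨g, hg, hy⟩ := nrm_frame y
    have e1 : (g⁻¹ : GLI).val * (M - 1) * g.val = (g⁻¹ : GLI).val * M * g.val - 1 := by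
      rw [mul_sub, sub_mul, mul_one, Units.inv_mul]
    rw [hy, e1] at hM
    obtain ⟨A, hA, hAM⟩ := hs _ hM
    refine ⟨g.val * A * (g⁻¹ : GLI).val, ?_, ?_⟩
    · rw [hy]
      have : (g⁻¹ : GLI).val * (g.val * A * (g⁻¹ : GLI).val) * g.val = A := by
        rw [← mul_assoc, ← mul_assoc, Units.inv_mul, one_mul, mul_assoc, Units.inv_mul, mul_one]
      rw [this]; exact hA
    · rw [Matrix.exp_units_conj, hAM, ← mul_assoc, ← mul_assoc, Units.mul_inv, one_mul, mul_assoc,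
        Units.mul_inv, mul_one]

theorem nrm_one (y : X) : nrm y (1 : Mat) = Real.sqrt 5 := by
  obtain ⟨g, hg, hy⟩ := nrm_frame y
  rw [hy, mul_one, Units.inv_mul, fn_one]

theorem fn_transpose (A : Mat) : fn Aᵀ = fn A := by
  unfold fn
  congr 1
  rw [Finset.sum_comm]
  rfl

theorem fn_J : fn J = Real.sqrt 5 := by
  have h : fn J = fn (1 : Mat) := by
    unfold fn J
    congr 1
    refine Finset.sum_congr rfl fun i _ => Finset.sum_congr rfl fun j _ => ?_
    rcases i with i | i <;> rcases j with j | j <;> simp [Matrix.fromBlocks, Matrix.one_apply]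
  rw [h, fn_one]

theorem sqrt5_le : Real.sqrt 5 ≤ 9 / 4 := by
  rw [Real.sqrt_le_left (by norm_num)]; norm_num

theorem nrm_JTJ (y : X) (A : Mat) : nrm y (J * Aᵀ * J) ≤ 6 * nrm y A := by
  obtain ⟨g, hg, hy⟩ := nrm_frame y
  rw [hy, hy]
  have e1 : (g⁻¹ : GLI).val * (J * Aᵀ * J) * g.val =
      J * ((g⁻¹ : GLI).val * A * g.val)ᵀ * J := by
    have i1 : g.val = J * ((g⁻¹ : GLI).val)ᵀ * J := by
      have := (InG.inv hg).inv_val
      rwa [inv_inv] at this
    have i2 : (g⁻¹ : GLI).val = J * (g.val)ᵀ * J := hg.inv_val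
    have e3 : (g⁻¹ : GLI).val * (J * Aᵀ * J) * g.val =
        (J * (g.val)ᵀ * J) * (J * Aᵀ * J) * (J * ((g⁻¹ : GLI).val)ᵀ * J) := by
      rw [← i2, ← i1]
    rw [e3, Matrix.transpose_mul, Matrix.transpose_mul]
    have hJ := J_mul_J
    calc J * (g.val)ᵀ * J * (J * Aᵀ * J) * (J * ((g⁻¹ : GLI).val)ᵀ * J)
        = J * (g.val)ᵀ * (J * J) * Aᵀ * (J * J) * ((g⁻¹ : GLI).val)ᵀ * J := by
          simp only [mul_assoc]
      _ = _ := by rw [hJ, mul_one, mul_one]; simp only [mul_assoc]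
  rw [e1]
  have h1 := fn_mul (J * ((g⁻¹ : GLI).val * A * g.val)ᵀ) J
  have h2 := fn_mul J ((g⁻¹ : GLI).val * A * g.val)ᵀ
  rw [fn_transpose] at h2
  rw [fn_J] at h1 h2
  have h3 := sqrt5_le
  have h4 := fn_nonneg ((g⁻¹ : GLI).val * A * g.val)
  have h5 := Real.sqrt_nonneg 5
  have h6 := Real.sq_sqrt (show (0:ℝ) ≤ 5 by norm_num)
  have h7 : fn (J * ((g⁻¹ : GLI).val * A * g.val)ᵀ) * √5 ≤
      (√5 * fn ((g⁻¹ : GLI).val * A * g.val)) * √5 := mul_le_mul_of_nonneg_right h2 h5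
  nlinarith

end Pool.Agent.helper21.WB.Z6
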